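import Mathlib

/-!
# MP_decea1_gt, block G, module Elem: matrices of determinant one are products of transvections

PROOF. `Matrix.Pivot.exists_list_transvec_mul_diagonal_mul_list_transvec`:
`A = (L.map toMatrix).prod * diagonal D * (L'.map toMatrix).prod`, so `∏ D i = 1` (transvections have
determinant one). Lists of transvections: induction on the list with `hm`, `h1`, `ht`
(`TransvectionStruct`: `t.toMatrix = transvection t.i t.j t.c`, `t.hij`). Diagonal matrices of
determinant one: for `d ≠ 0` put `w i j d = transvection i j d * transvection j i (-d⁻¹) *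
transvection i j d`; `w i j d * w i j (-1)` is the diagonal matrix with the entries `d` at `i`, `d⁻¹`
at `j` and `1` at the third place; and
`diagonal D = (D 0, (D 0)⁻¹, 1) * (1, D 0 * D 1, (D 0 * D 1)⁻¹)`. All matrix identities of size 3:
`ext i j; fin_cases i <;> fin_cases j <;> simp [...]` with `field_simp`.
-/

set_option autoImplicit false

open Matrix

namespace Pool.Agent.QM59.G

private theorem diag01 {k : Type*} [Field k] (d : k) (hd : d ≠ 0) :
    Matrix.diagonal (![d, d⁻¹, 1] : Fin 3 → k)
      = (Matrix.transvection 0 1 d * Matrix.transvection 1 0 (-d⁻¹) * Matrix.transvection 0 1 d)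
        * (Matrix.transvection 0 1 (-1) * Matrix.transvection 1 0 1
          * Matrix.transvection 0 1 (-1)) := by
  ext i j
  fin_cases i <;> fin_cases j <;>
    simp [Matrix.transvection, Matrix.single, Matrix.mul_apply, Fin.sum_univ_three,
      Matrix.diagonal, hd]

private theorem diag12 {k : Type*} [Field k] (d : k) (hd : d ≠ 0) :
    Matrix.diagonal (![1, d, d⁻¹] : Fin 3 → k)
      = (Matrix.transvection 1 2 d * Matrix.transvection 2 1 (-d⁻¹) * Matrix.transvection 1 2 d)
        * (Matrix.transvection 1 2 (-1) * Matrix.transvection 2 1 1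
          * Matrix.transvection 1 2 (-1)) := by
  ext i j
  fin_cases i <;> fin_cases j <;>
    simp [Matrix.transvection, Matrix.single, Matrix.mul_apply, Fin.sum_univ_three,
      Matrix.diagonal, hd]

theorem det_one_induction {k : Type*} [Field k] (P : Matrix (Fin 3) (Fin 3) k → Prop) (h1 : P 1)
    (hm : ∀ A B, P A → P B → P (A * B))
    (ht : ∀ i j, i ≠ j → ∀ c, P (Matrix.transvection i j c)) (A : Matrix (Fin 3) (Fin 3) k)
    (hA : A.det = 1) : P A := by
  classical
  obtain ⟨L, L', D, hD⟩ :=
    Matrix.Pivot.exists_list_transvec_mul_diagonal_mul_list_transvec A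
  have hlist : ∀ L : List (TransvectionStruct (Fin 3) k),
      P (L.map TransvectionStruct.toMatrix).prod := by
    intro L
    induction L with
    | nil => simpa using h1
    | cons t L ih =>
      rw [List.map_cons, List.prod_cons]
      exact hm _ _ (ht t.i t.j t.hij t.c) ih
  have hdet : D 0 * D 1 * D 2 = 1 := by
    have h := hA
    rw [hD, Matrix.det_mul, Matrix.det_mul, TransvectionStruct.det_toMatrix_prod,
      TransvectionStruct.det_toMatrix_prod, Matrix.det_diagonal, Fin.prod_univ_three] at h
    simpa using h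
  have h0 : D 0 ≠ 0 := by
    intro h
    rw [h] at hdet
    simp at hdet
  have h1' : D 1 ≠ 0 := by
    intro h
    rw [h] at hdet
    simp at hdet
  have h2 : D 2 = (D 0 * D 1)⁻¹ := (inv_eq_of_mul_eq_one_right hdet).symm
  have hdiag : P (Matrix.diagonal D) := by
    have e : Matrix.diagonal D = Matrix.diagonal (![D 0, (D 0)⁻¹, 1] : Fin 3 → k)
        * Matrix.diagonal (![1, D 0 * D 1, (D 0 * D 1)⁻¹] : Fin 3 → k) := by
      rw [Matrix.diagonal_mul_diagonal]
      congr 1
      funext i
      fin_cases i
      · simp
      · simp [h0]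
      · simp [h2]
    rw [e, diag01 _ h0, diag12 _ (mul_ne_zero h0 h1')]
    refine hm _ _ (hm _ _ ?_ ?_) (hm _ _ ?_ ?_)
    · exact hm _ _ (hm _ _ (ht _ _ (by decide) _) (ht _ _ (by decide) _)) (ht _ _ (by decide) _)
    · exact hm _ _ (hm _ _ (ht _ _ (by decide) _) (ht _ _ (by decide) _)) (ht _ _ (by decide) _)
    · exact hm _ _ (hm _ _ (ht _ _ (by decide) _) (ht _ _ (by decide) _)) (ht _ _ (by decide) _)
    · exact hm _ _ (hm _ _ (ht _ _ (by decide) _) (ht _ _ (by decide) _)) (ht _ _ (by decide) _)
  rw [hD]
  exact hm _ _ (hm _ _ (hlist L) hdiag) (hlist L')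

end Pool.Agent.QM59.G
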