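import Mathlib
import Pool.Agent.Lib.MP_decea1_gt_A.Iso1

/-!
# MP_decea1_gt, block G, module Glue: products of maps with disjoint supports

PROOF. Induction on `n` with the product `G = g (last) * G'`: `g i` maps `U i` onto itself
(`InIso.image_eq` or `IdOff.mem_iff`) and is the identity off `U i` (`InIso.idOff`); so for `x ∈ U i` all other
factors fix `x` and `g i x`.
-/

set_option autoImplicit false

open MeasureTheory Set Filter Topology

namespace Pool.Agent.QM59.G

theorem glue (n : ℕ) (U : Fin n → Set E3) (hd : Pairwise fun i j => Disjoint (U i) (U j))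
    (V : Set E3) (hV : ∀ i, U i ⊆ V) (g : Fin n → Equiv.Perm E3) (hg : ∀ i, InIso (U i) (g i)) :
    ∃ G : Equiv.Perm E3, InIso V G ∧ (∀ i, ∀ x ∈ U i, G x = g i x) ∧
      (∀ i, ∀ x ∈ U i, G.symm x = (g i).symm x) ∧ ∀ x, (∀ i, x ∉ U i) → G x = x := by
  suffices H : ∃ G : Equiv.Perm E3, InIso V G ∧ (∀ i, ∀ x ∈ U i, G x = g i x) ∧
      ∀ x, (∀ i, x ∉ U i) → G x = x by
    obtain ⟨G, h1, h2, h3⟩ := H
    refine ⟨G, h1, h2, fun i x hx => ?_, h3⟩
    have hx' : x ∈ g i '' U i := by rw [(hg i).image_eq subset_rfl]; exact hx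
    obtain ⟨y, hy, rfl⟩ := hx'
    rw [Equiv.symm_apply_apply, Equiv.symm_apply_eq]
    exact (h2 i y hy).symm
  induction n with
  | zero => exact ⟨1, InIso.one V, fun i => i.elim0, fun x _ => rfl⟩
  | succ n ih =>
    obtain ⟨G, h1, h2, h3⟩ := ih (fun i => U i.succ)
      (fun i j hij => hd fun e => hij (Fin.succ_injective n e)) (fun i => hV i.succ)
      (fun i => g i.succ) (fun i => hg i.succ)
    refine ⟨g 0 * G, ((hg 0).mono (hV 0)).mul h1, ?_, ?_⟩
    · intro i
      refine Fin.cases ?_ (fun j => ?_) i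
      · intro x hx
        have h4 : G x = x := h3 x fun j hj =>
          Set.disjoint_left.1 (hd (Fin.succ_ne_zero j).symm) hx hj
        rw [Equiv.Perm.mul_apply, h4]
      · intro x hx
        rw [Equiv.Perm.mul_apply, h2 j x hx]
        have h5 : g j.succ x ∈ U j.succ := by
          rw [← (hg j.succ).image_eq subset_rfl]
          exact mem_image_of_mem _ hx
        exact (hg 0).idOff _ fun h0 =>
          Set.disjoint_left.1 (hd (Fin.succ_ne_zero j)) h5 h0
    · intro x hx
      rw [Equiv.Perm.mul_apply, h3 x fun j => hx j.succ]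
      exact (hg 0).idOff _ (hx 0)

end Pool.Agent.QM59.G
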