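import Mathlib
import Pool.Agent.Lib.MP_decea1_gt_A.A1
import Pool.Agent.Lib.MP_decea1_gt_A.Iso1

/-!
# MP_decea1_gt, block G, module Step: small affine moves near a point

PROOF. `χ` from `exists_bump U {p}` (`= 1` on an open `W ∋ p`, zero off a compact `L ⊆ U`). For `B`, `w`
put `v x = χ x • (w + B (x - p))`. On `L`: `‖fderiv v x‖ ≤ ‖fderiv χ x‖ * (‖w‖ + ‖B‖ * ‖x - p‖) +
|χ x| * ‖B‖ ≤ C * δ` with `C` independent of `B`, `w` (`fderiv χ` and `x - p` are bounded on `L`); off `L`
the derivative vanishes (complement of `L` is open). So `δ` with `C * δ ≤ 1/2` and `A1`.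
-/

set_option autoImplicit false

open MeasureTheory Set Filter Topology

namespace Pool.Agent.QM59.G

/-- small affine moves, uniformly in the linear part and in the translation -/
theorem step_aff (U : Set E3) (hU : IsOpen U) (p : E3) (hp : p ∈ U) :
    ∃ δ : ℝ, 0 < δ ∧ ∀ (B : E3 →L[ℝ] E3) (w : E3), ‖B‖ ≤ δ → ‖w‖ ≤ δ →
      ∃ u : Equiv.Perm E3, InIso U u ∧ ∀ᶠ x in 𝓝 p, u x = x + (w + B (x - p)) := by
  obtain ⟨χ, hχ, hχ01, ⟨W, hW, hpW, hW1⟩, L, hL, hLU, hL0⟩ :=
    exists_bump U {p} hU isCompact_singleton (singleton_subset_iff.2 hp)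
  have hχd : Differentiable ℝ χ := hχ.differentiable (by simp)
  have hdc : Continuous (fderiv ℝ χ) := hχ.continuous_fderiv (by simp)
  obtain ⟨M, hM⟩ := hL.exists_bound_of_continuousOn hdc.continuousOn
  obtain ⟨R, hR⟩ := hL.exists_bound_of_continuousOn
    (f := fun x : E3 => x - p) (continuous_id.sub continuous_const).continuousOn
  have hdz : ∀ x, x ∉ L → fderiv ℝ χ x = 0 := by
    intro x hx
    have h1 : χ =ᶠ[𝓝 x] fun _ => (0 : ℝ) := by
      filter_upwards [hL.isClosed.isOpen_compl.mem_nhds hx] with y hy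
      exact hL0 y hy
    rw [h1.fderiv_eq, fderiv_const_apply]
  have hC : 0 < 1 + |M| * (1 + |R|) := by positivity
  refine ⟨(2 * (1 + |M| * (1 + |R|)))⁻¹, by positivity, fun B w hB hw => ?_⟩
  have hg : ∀ x, HasFDerivAt (fun x : E3 => w + B (x - p)) B x := by
    intro x
    have h1 : HasFDerivAt (fun x : E3 => x - p) (ContinuousLinearMap.id ℝ E3) x :=
      (hasFDerivAt_id x).sub_const p
    exact (B.hasFDerivAt.comp x h1).const_add w
  have hsm : ContDiff ℝ smo (fun x : E3 => w + B (x - p)) :=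
    contDiff_const.add (B.contDiff.comp (contDiff_id.sub contDiff_const))
  obtain ⟨u, hu, hux⟩ := A1 U hU (fun x => χ x • (w + B (x - p))) (hχ.smul hsm) L hL hLU
    (fun x hx => by rw [hL0 x hx, zero_smul]) (fun x => by
      have h1 : fderiv ℝ (fun x => χ x • (w + B (x - p))) x =
          χ x • B + (fderiv ℝ χ x).smulRight (w + B (x - p)) :=
        ((hχd x).hasFDerivAt.smul (hg x)).fderiv
      rw [h1]
      by_cases hx : x ∈ L
      · have h2 : ‖χ x • B‖ ≤ (2 * (1 + |M| * (1 + |R|)))⁻¹ := by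
          rw [norm_smul, Real.norm_eq_abs, abs_of_nonneg (hχ01 x).1]
          exact (mul_le_of_le_one_left (norm_nonneg _) (hχ01 x).2).trans hB
        have h3 : ‖w + B (x - p)‖ ≤ (2 * (1 + |M| * (1 + |R|)))⁻¹ * (1 + |R|) := by
          have h4 : ‖B (x - p)‖ ≤ (2 * (1 + |M| * (1 + |R|)))⁻¹ * |R| :=
            (B.le_opNorm _).trans (mul_le_mul hB ((hR x hx).trans (le_abs_self R))
              (norm_nonneg _) (by positivity))
          calc ‖w + B (x - p)‖ ≤ ‖w‖ + ‖B (x - p)‖ := norm_add_le _ _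
            _ ≤ (2 * (1 + |M| * (1 + |R|)))⁻¹ + (2 * (1 + |M| * (1 + |R|)))⁻¹ * |R| :=
                add_le_add hw h4
            _ = (2 * (1 + |M| * (1 + |R|)))⁻¹ * (1 + |R|) := by ring
        have h5 : ‖(fderiv ℝ χ x).smulRight (w + B (x - p))‖ ≤
            |M| * ((2 * (1 + |M| * (1 + |R|)))⁻¹ * (1 + |R|)) := by
          rw [ContinuousLinearMap.norm_smulRight_apply]
          exact mul_le_mul ((hM x hx).trans (le_abs_self M)) h3 (norm_nonneg _) (abs_nonneg M)
        calc ‖χ x • B + (fderiv ℝ χ x).smulRight (w + B (x - p))‖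
            ≤ (2 * (1 + |M| * (1 + |R|)))⁻¹ +
              |M| * ((2 * (1 + |M| * (1 + |R|)))⁻¹ * (1 + |R|)) :=
              (norm_add_le _ _).trans (add_le_add h2 h5)
          _ = 1 / 2 * ((1 + |M| * (1 + |R|)) * (1 + |M| * (1 + |R|))⁻¹) := by
              rw [mul_inv]
              ring
          _ = 1 / 2 := by rw [mul_inv_cancel₀ hC.ne', mul_one]
          _ ≤ 1 / 2 := le_rfl
      · rw [hL0 x hx, hdz x hx, zero_smul, zero_add, ContinuousLinearMap.zero_smulRight, norm_zero]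
        norm_num)
  refine ⟨u, hu, ?_⟩
  filter_upwards [hW.mem_nhds (hpW (mem_singleton p))] with x hx
  rw [hux, hW1 x hx, one_smul]

end Pool.Agent.QM59.G
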