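import Mathlib
import Pool.Agent.Lib.MP_decea1_gt_G.Step
import Pool.Agent.Lib.MP_decea1_gt_G.Elem

/-!
# MP_decea1_gt, block G, module Move (G1): affine moves

PROOF. `move_tr`: let `R` be the set of `q ∈ U` which are reached: some `u` with `InIso U u` is
`x ↦ x + (q - p)` near `p`. `R` contains `p` and is open (`step_aff` at `q` with `B = 0`,
`InIso.mul`); `U \ R` is open: let `q ∈ U \ R`, `δ` from `step_aff` at `q`; if `q' ∈ R`,
`‖q' - q‖ ≤ δ`, then the inverse of the step `x ↦ x + (q' - q)` near `q` is `x ↦ x - (q' - q)` near `q'`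
(a permutation which is a homeomorphism, `InIso.isDif`), so `q ∈ R`. `U` is preconnected
(`IsPreconnected.subset_or_subset` or `IsClopen` arguments). `move_lin`: the set of matrices `A` such
that some `u` with `InIso U u` is `x ↦ p + A (x - p)` near `p` is closed under products (near `p`
these maps fix `p`, so the composition is as stated), contains `1` and, by `step_aff` with `w = 0`, all
`1 + B` with `B` small, in particular `transvection i j (c / m)` for `m` large, and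
`transvection i j c = (transvection i j (c / m)) ^ m`; then `det_one_induction`.
`move_aff`: the composition of `move_lin` at `p` and of `move_tr`.
-/

set_option autoImplicit false

open MeasureTheory Set Filter Topology

namespace Pool.Agent.QM59.G

private theorem Move_tendsto {U : Set E3} {u : Equiv.Perm E3} (hu : InIso U u) {x y : E3}
    (h : u x = y) : Tendsto (fun z => u z) (𝓝 x) (𝓝 y) := by
  have h1 : Continuous (fun z => u z) := hu.isDif.1.continuous
  have h2 := h1.tendsto x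
  rwa [h] at h2

theorem move_tr (U : Set E3) (hU : IsOpen U) (hc : IsConnected U) (p p' : E3) (hp : p ∈ U)
    (hp' : p' ∈ U) : ∃ u : Equiv.Perm E3, InIso U u ∧ ∀ᶠ x in 𝓝 p, u x = x + (p' - p) := by
  refine IsPreconnected.induction₂ hc.isPreconnected
    (fun x y => ∃ u : Equiv.Perm E3, InIso U u ∧ ∀ᶠ z in 𝓝 x, u z = z + (y - x)) ?_ ?_ ?_ hp hp'
  · intro x hx
    obtain ⟨δ, hδ, h⟩ := step_aff U hU x hx
    have h1 : ∀ᶠ y in 𝓝[U] x, ‖y - x‖ ≤ δ := by
      refine nhdsWithin_le_nhds ?_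
      filter_upwards [Metric.closedBall_mem_nhds x hδ] with y hy
      rwa [mem_closedBall_iff_norm] at hy
    filter_upwards [h1] with y hy
    obtain ⟨u, hu, h2⟩ := h 0 (y - x) (by rw [norm_zero]; exact hδ.le) hy
    refine ⟨u, hu, ?_⟩
    filter_upwards [h2] with z hz
    rw [hz]
    simp
  · rintro x y z - - - ⟨u, hu, h1⟩ ⟨v, hv, h2⟩
    refine ⟨v * u, hv.mul hu, ?_⟩
    have hxy : u x = y := by
      rw [h1.self_of_nhds, add_sub_cancel]
    filter_upwards [h1, (Move_tendsto hu hxy).eventually h2] with w hw1 hw2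
    rw [Equiv.Perm.mul_apply, hw2, hw1]
    abel
  · rintro x y - - ⟨u, hu, h1⟩
    refine ⟨u⁻¹, hu.inv, ?_⟩
    have ht : Tendsto (fun z : E3 => z + (x - y)) (𝓝 y) (𝓝 x) := by
      have h3 : Continuous (fun z : E3 => z + (x - y)) := by fun_prop
      have h4 := h3.tendsto y
      rwa [add_sub_cancel] at h4
    filter_upwards [ht.eventually h1] with z hz
    rw [Equiv.Perm.inv_eq_iff_eq, hz]
    abel

private theorem Move_lin_mul {U : Set E3} {p : E3} {A B : Matrix (Fin 3) (Fin 3) ℝ}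
    (hA : ∃ u : Equiv.Perm E3, InIso U u ∧ ∀ᶠ x in 𝓝 p, u x = p + A.mulVec (x - p))
    (hB : ∃ u : Equiv.Perm E3, InIso U u ∧ ∀ᶠ x in 𝓝 p, u x = p + B.mulVec (x - p)) :
    ∃ u : Equiv.Perm E3, InIso U u ∧ ∀ᶠ x in 𝓝 p, u x = p + (A * B).mulVec (x - p) := by
  obtain ⟨u, hu, h1⟩ := hA
  obtain ⟨v, hv, h2⟩ := hB
  refine ⟨u * v, hu.mul hv, ?_⟩
  have hvp : v p = p := by
    rw [h2.self_of_nhds, sub_self, Matrix.mulVec_zero, add_zero]
  filter_upwards [h2, (Move_tendsto hv hvp).eventually h1] with x hx1 hx2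
  rw [Equiv.Perm.mul_apply, hx2, hx1, add_sub_cancel_left, Matrix.mulVec_mulVec]

theorem move_lin (U : Set E3) (hU : IsOpen U) (p : E3) (hp : p ∈ U)
    (A : Matrix (Fin 3) (Fin 3) ℝ) (hA : A.det = 1) :
    ∃ u : Equiv.Perm E3, InIso U u ∧ ∀ᶠ x in 𝓝 p, u x = p + A.mulVec (x - p) := by
  have hone : ∃ u : Equiv.Perm E3, InIso U u ∧
      ∀ᶠ x in 𝓝 p, u x = p + (1 : Matrix (Fin 3) (Fin 3) ℝ).mulVec (x - p) := by
    refine ⟨1, InIso.one U, Eventually.of_forall fun x => ?_⟩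
    rw [Matrix.one_mulVec, add_sub_cancel, Equiv.Perm.one_apply]
  refine det_one_induction (fun A => ∃ u : Equiv.Perm E3, InIso U u ∧
    ∀ᶠ x in 𝓝 p, u x = p + A.mulVec (x - p)) hone (fun A B h1 h2 => Move_lin_mul h1 h2) ?_ A hA
  intro i j hij c
  obtain ⟨δ, hδ, h⟩ := step_aff U hU p hp
  obtain ⟨N, hN⟩ : ∃ N : E3 →L[ℝ] E3, ∀ x, N x = (Matrix.single i j (1 : ℝ)).mulVec x :=
    ⟨LinearMap.toContinuousLinearMap (Matrix.mulVecLin (Matrix.single i j (1 : ℝ))), fun x => rfl⟩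
  obtain ⟨m, hm⟩ := exists_nat_gt (|c| * ‖N‖ / δ)
  have hm1 : (0 : ℝ) < ((m : ℝ) + 1) := by positivity
  have hsm : ‖(c / ((m : ℝ) + 1)) • N‖ ≤ δ := by
    rw [norm_smul, Real.norm_eq_abs, abs_div, abs_of_pos hm1, div_mul_eq_mul_div, div_le_iff₀ hm1]
    rw [div_lt_iff₀ hδ] at hm
    nlinarith
  have h1 : ∃ u : Equiv.Perm E3, InIso U u ∧
      ∀ᶠ x in 𝓝 p, u x = p + (Matrix.transvection i j (c / ((m : ℝ) + 1))).mulVec (x - p) := by
    obtain ⟨u, hu, h2⟩ := h ((c / ((m : ℝ) + 1)) • N) 0 hsm (by rw [norm_zero]; exact hδ.le)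
    refine ⟨u, hu, ?_⟩
    filter_upwards [h2] with x hx
    have h3 : Matrix.single i j (c / ((m : ℝ) + 1)) =
        (c / ((m : ℝ) + 1)) • Matrix.single i j (1 : ℝ) := by
      rw [Matrix.smul_single, smul_eq_mul, mul_one]
    rw [hx, zero_add, ContinuousLinearMap.smul_apply, hN, Matrix.transvection, Matrix.add_mulVec,
      Matrix.one_mulVec, h3, Matrix.smul_mulVec, ← add_assoc, add_sub_cancel]
  have h2 : ∀ k : ℕ, ∃ u : Equiv.Perm E3, InIso U u ∧ ∀ᶠ x in 𝓝 p, u x =
      p + (Matrix.transvection i j ((k : ℝ) * (c / ((m : ℝ) + 1)))).mulVec (x - p) := by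
    intro k
    induction k with
    | zero =>
      rw [Nat.cast_zero, zero_mul, Matrix.transvection_zero]
      exact hone
    | succ k ih =>
      have h4 := Move_lin_mul ih h1
      rw [Matrix.transvection_mul_transvection_same _ _ hij] at h4
      have h5 : ((k + 1 : ℕ) : ℝ) * (c / ((m : ℝ) + 1)) =
          (k : ℝ) * (c / ((m : ℝ) + 1)) + c / ((m : ℝ) + 1) := by
        push_cast
        ring
      rw [h5]
      exact h4
  have h6 := h2 (m + 1)
  have h7 : ((m + 1 : ℕ) : ℝ) * (c / ((m : ℝ) + 1)) = c := by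
    push_cast
    field_simp
  rw [h7] at h6
  exact h6

theorem move_aff (U : Set E3) (hU : IsOpen U) (hc : IsConnected U) (p p' : E3) (hp : p ∈ U)
    (hp' : p' ∈ U) (A : Matrix (Fin 3) (Fin 3) ℝ) (hA : A.det = 1) :
    ∃ u : Equiv.Perm E3, InIso U u ∧ ∀ᶠ x in 𝓝 p, u x = p' + A.mulVec (x - p) := by
  obtain ⟨v, hv, h1⟩ := move_tr U hU hc p p' hp hp'
  obtain ⟨w, hw, h2⟩ := move_lin U hU p hp A hA
  refine ⟨v * w, hv.mul hw, ?_⟩
  have hwp : w p = p := by
    rw [h2.self_of_nhds, sub_self, Matrix.mulVec_zero, add_zero]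
  filter_upwards [h2, (Move_tendsto hw hwp).eventually h1] with x hx1 hx2
  rw [Equiv.Perm.mul_apply, hx2, hx1]
  abel

end Pool.Agent.QM59.G
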