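import Mathlib
import Pool.Agent.Lib.MP_decea1_gt_G.Move

/-!
# MP_decea1_gt, block G, module Multi: prescribed affine germs at several points

PROOF. Induction on `n`, for all `U`. Step `n + 1`: put `V = U \ {p n, t n}` (`n` the last
index, `Fin.last`); `V` is open, `V \ F = U \ ({p n, t n} ∪ F)`. The induction hypothesis for
`V` and the first `n` points gives `M'`. `u` from `move_aff (U \ {t i : i < n}) (p n) (t n) (A
n)`. `M = u * M'`. Near `p i`, `i < n`: `M'` is as required, it is continuous and `M' (p i) = t
i`, and `u` is the identity near `t i` (off a compact subset of `U \ {t i}`, `InIso.supp`). Near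
`p n`: `M'` is the identity (compact support in `V`, which does not contain `p n`), then `u`. `t
n` is in the open set (`hti`), `p n` as well (`hpt`).
-/

set_option autoImplicit false

open MeasureTheory Set Filter Topology

namespace Pool.Agent.QM59.G

theorem multi (n : ℕ) : ∀ (U : Set E3), IsOpen U →
    (∀ F : Set E3, F.Finite → IsConnected (U \ F)) → ∀ (p t : Fin n → E3), (∀ i, p i ∈ U) →
    (∀ i, t i ∈ U) → Function.Injective p → Function.Injective t → (∀ i j, i ≠ j → p i ≠ t j) →
    ∀ A : Fin n → Matrix (Fin 3) (Fin 3) ℝ, (∀ i, (A i).det = 1) →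
    ∃ M : Equiv.Perm E3, InIso U M ∧
      ∀ i, ∀ᶠ x in 𝓝 (p i), M x = t i + (A i).mulVec (x - p i) := by
  induction n with
  | zero => intro U _ _ p t _ _ _ _ _ A _; exact ⟨1, InIso.one U, fun i => i.elim0⟩
  | succ n ih =>
    intro U hU hc p t hp ht hpi hti hpt A hA
    obtain ⟨M', hM', hM'g⟩ := ih (U \ {p (Fin.last n), t (Fin.last n)})
      (hU.sdiff (Set.toFinite _).isClosed)
      (by
        intro F hF
        rw [Set.sdiff_sdiff]
        exact hc _ ((Set.toFinite _).union hF))
      (fun i => p i.castSucc) (fun i => t i.castSucc)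
      (by
        intro i
        refine ⟨hp _, ?_⟩
        rintro (h | h)
        · exact (Fin.castSucc_lt_last i).ne (hpi h)
        · exact hpt _ _ (Fin.castSucc_lt_last i).ne h)
      (by
        intro i
        refine ⟨ht _, ?_⟩
        rintro (h | h)
        · exact hpt _ _ (Fin.castSucc_lt_last i).ne' h.symm
        · exact (Fin.castSucc_lt_last i).ne (hti h))
      (fun i j h => Fin.castSucc_injective n (hpi h))
      (fun i j h => Fin.castSucc_injective n (hti h))
      (fun i j h => hpt _ _ fun h' => h (Fin.castSucc_injective n h'))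
      (fun i => A i.castSucc) (fun i => hA _)
    have hfin : (Set.range fun i : Fin n => t i.castSucc).Finite := Set.finite_range _
    obtain ⟨u, hu, hug⟩ := move_aff (U \ Set.range fun i : Fin n => t i.castSucc)
      (hU.sdiff hfin.isClosed) (hc _ hfin) (p (Fin.last n)) (t (Fin.last n))
      ⟨hp _, by rintro ⟨i, h⟩; exact hpt _ _ (Fin.castSucc_lt_last i).ne' h.symm⟩
      ⟨ht _, by rintro ⟨i, h⟩; exact (Fin.castSucc_lt_last i).ne (hti h)⟩
      (A (Fin.last n)) (hA _)
    refine ⟨u * M', (hu.mono Set.sdiff_subset).mul (hM'.mono Set.sdiff_subset), ?_⟩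
    intro i
    refine Fin.lastCases ?_ (fun i => ?_) i
    · obtain ⟨K, hKV, hK, hoff⟩ := hM'.supp
      have h1 : ∀ᶠ x in 𝓝 (p (Fin.last n)), x ∉ K :=
        hK.isClosed.isOpen_compl.mem_nhds fun h => (hKV h).2 (Or.inl rfl)
      filter_upwards [h1, hug] with x hx hx2
      rw [Equiv.Perm.mul_apply, hoff x hx, hx2]
    · obtain ⟨K, hKV, hK, hoff⟩ := hu.supp
      have h0 : M' (p i.castSucc) = t i.castSucc := by
        have := (hM'g i).self_of_nhds
        simpa using this
      have h1 : ∀ᶠ y in 𝓝 (t i.castSucc), y ∉ K :=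
        hK.isClosed.isOpen_compl.mem_nhds fun h => (hKV h).2 ⟨i, rfl⟩
      have h2 : Tendsto (fun x => M' x) (𝓝 (p i.castSucc)) (𝓝 (t i.castSucc)) := by
        have := hM'.isDif.1.continuous.tendsto (p i.castSucc)
        rwa [h0] at this
      filter_upwards [h2.eventually h1, hM'g i] with x hx hx2
      rw [Equiv.Perm.mul_apply, hoff _ hx, hx2]

end Pool.Agent.QM59.G
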