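import Mathlib
import Pool.Agent.Lib.MP_decea1_gt_A.Bump

/-!
# MP_decea1_gt, block G, module Grid: grid cubes which are good for an open covering

PROOF. `exists_grid`: for `N ≥ 1` let `Bad N` be the set of `x ∈ Cube` which lie in no
`gcube N j 0` with `gcube N j 0 ⊆ O` for some `O ∈ 𝒪`. For `x ∈ O ∈ 𝒪` a ball `ball x r ⊆ O`; if
`2 / N < r` the closed grid cube with `j i = ⌊N x i⌋₊` contains `x` and is inside the ball:
`x ∉ Bad N` for large `N`. So the indicators of `Bad N` tend to zero almost everywhere on the cube and `volume (Bad N) → 0`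
(dominated convergence, or: `⋂ N, ⋃ M ≥ N, Bad M ⊆ Cube \ ⋃₀ 𝒪` and continuity from above,
`tendsto_measure_iInter_atTop`; the sets are measurable: cube minus a finite union of closed boxes).
`exists_grid_shrunk`: `N` from `exists_grid` for `v / 2`; the open boxes
`gbox N j t` increase to the open grid cubes as `t → 0` and the faces are null sets, finitely many
`j`, so the measure of the difference tends to `0` (explicitly: it is at most
`N ^ 3 * (N⁻¹ ^ 3 - ((1 - 2 t) / N) ^ 3) ≤ 6 t`).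
-/

set_option autoImplicit false

open MeasureTheory Set Filter Topology

namespace Pool.Agent.QM59.G

/-- closed grid cube of mesh `1 / N`, shrunk by `t` (in grid units) on every side -/
def gcube (N : ℕ) (j : Fin 3 → Fin N) (t : ℝ) : Set E3 :=
  Icc (fun i => ((j i : ℕ) + t) / (N : ℝ)) (fun i => ((j i : ℕ) + 1 - t) / (N : ℝ))

/-- open grid cube of mesh `1 / N`, shrunk by `t` (in grid units) on every side -/
def gbox (N : ℕ) (j : Fin 3 → Fin N) (t : ℝ) : Set E3 :=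
  Box (fun i => ((j i : ℕ) + t) / (N : ℝ)) (fun i => ((j i : ℕ) + 1 - t) / (N : ℝ))

theorem gbox_disjoint (N : ℕ) {j j' : Fin 3 → Fin N} (h : j ≠ j') {t : ℝ} (ht : 0 ≤ t) :
    Disjoint (gbox N j t) (gbox N j' t) := by
  rw [Set.disjoint_left]
  intro x hx hx'
  apply h
  funext i
  have hN : (0 : ℝ) < (N : ℝ) := by
    have : 0 < N := (Nat.zero_le _).trans_lt (j i).isLt
    exact_mod_cast this
  have key : ∀ a b : Fin 3 → Fin N, x ∈ gbox N a t → x ∈ gbox N b t →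
      ¬ ((a i : ℕ) < (b i : ℕ)) := by
    intro a b ha hb hab
    have h1 := (ha i).2
    have h2 := (hb i).1
    have h3 : ((a i : ℕ) : ℝ) + 1 ≤ ((b i : ℕ) : ℝ) := by exact_mod_cast hab
    have h4 := h2.trans h1
    rw [div_lt_div_iff_of_pos_right hN] at h4
    linarith
  exact Fin.ext (le_antisymm (not_lt.1 (key j' j hx' hx)) (not_lt.1 (key j j' hx hx')))

/-- The union of the good closed cubes is measurable. -/
private theorem Grid_meas (𝒪 : Set (Set E3)) (N : ℕ) : MeasurableSet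
    (Cube \ ⋃ j ∈ {j : Fin 3 → Fin N | ∃ O ∈ 𝒪, gcube N j 0 ⊆ O}, gcube N j 0) :=
  isOpen_Cube.measurableSet.diff
    (MeasurableSet.biUnion (Set.to_countable _) fun _ _ => measurableSet_Icc)

private theorem Grid_cube_lt_top : volume Cube ≠ ⊤ := by
  unfold Cube
  rw [volume_Box]
  exact ENNReal.prod_ne_top fun i _ => ENNReal.ofReal_ne_top

private theorem Grid_point (𝒪 : Set (Set E3)) (ho : ∀ O ∈ 𝒪, IsOpen O) {x : E3} (hx : x ∈ Cube)
    (hO : x ∈ ⋃₀ 𝒪) : ∃ M : ℕ, ∀ N : ℕ, M ≤ N →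
      x ∈ ⋃ j ∈ {j : Fin 3 → Fin N | ∃ O ∈ 𝒪, gcube N j 0 ⊆ O}, gcube N j 0 := by
  obtain ⟨O, hOm, hxO⟩ := hO
  obtain ⟨r, hr, hb⟩ := Metric.isOpen_iff.1 (ho O hOm) x hxO
  obtain ⟨M, hM⟩ := exists_nat_gt (1 / r)
  refine ⟨M + 1, fun N hN => ?_⟩
  have hN1 : (M : ℝ) + 1 ≤ (N : ℝ) := by exact_mod_cast hN
  have hM0 : (0 : ℝ) ≤ (M : ℝ) := Nat.cast_nonneg M
  have hN0 : (0 : ℝ) < (N : ℝ) := by linarith
  have hNr : 1 / (N : ℝ) < r := by
    rw [div_lt_iff₀ hN0]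
    have h1 : 1 / r < (N : ℝ) := by linarith
    rw [div_lt_iff₀ hr] at h1
    linarith
  have hpos : ∀ i, 0 ≤ (N : ℝ) * x i := fun i => mul_nonneg hN0.le (hx i).1.le
  have hlt : ∀ i, ⌊(N : ℝ) * x i⌋₊ < N := by
    intro i
    rw [Nat.floor_lt (hpos i)]
    have h1 : x i < 1 := (hx i).2
    nlinarith
  set j : Fin 3 → Fin N := fun i => ⟨⌊(N : ℝ) * x i⌋₊, hlt i⟩ with hj
  have hl : ∀ i, ((j i : ℕ) : ℝ) ≤ (N : ℝ) * x i := fun i => Nat.floor_le (hpos i)
  have hu : ∀ i, (N : ℝ) * x i ≤ ((j i : ℕ) : ℝ) + 1 := fun i => (Nat.lt_floor_add_one _).le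
  have hmem : x ∈ gcube N j 0 := by
    refine ⟨fun i => ?_, fun i => ?_⟩
    · simp only [add_zero]
      rw [div_le_iff₀ hN0]
      have := hl i
      linarith
    · simp only [sub_zero]
      rw [le_div_iff₀ hN0]
      have := hu i
      linarith
  refine Set.mem_biUnion (x := j) ⟨O, hOm, fun y hy => hb ?_⟩ hmem
  rw [Metric.mem_ball, dist_pi_lt_iff hr]
  intro i
  have h1 := hy.1 i
  have h2 := hy.2 i
  have h3 := hmem.1 i
  have h4 := hmem.2 i
  simp only [add_zero, sub_zero] at h1 h2 h3 h4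
  have h5 : (((j i : ℕ) : ℝ) + 1) / (N : ℝ) = ((j i : ℕ) : ℝ) / (N : ℝ) + 1 / (N : ℝ) := by ring
  rw [Real.dist_eq, abs_lt]
  constructor <;> linarith

theorem exists_grid (𝒪 : Set (Set E3)) (ho : ∀ O ∈ 𝒪, IsOpen O)
    (hm : volume (Cube \ ⋃₀ 𝒪) = 0) (v : ℝ) (hv : 0 < v) : ∃ N₀ : ℕ, 0 < N₀ ∧ ∀ N : ℕ, N₀ ≤ N →
      volume (Cube \ ⋃ j ∈ {j : Fin 3 → Fin N | ∃ O ∈ 𝒪, gcube N j 0 ⊆ O}, gcube N j 0) <
        ENNReal.ofReal v := by
  set B : ℕ → Set E3 := fun N =>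
    Cube \ ⋃ j ∈ {j : Fin 3 → Fin N | ∃ O ∈ 𝒪, gcube N j 0 ⊆ O}, gcube N j 0 with hB
  set T : ℕ → Set E3 := fun M => ⋃ N ∈ {N : ℕ | M ≤ N}, B N with hT
  have hTm : ∀ M, MeasurableSet (T M) := fun M =>
    MeasurableSet.biUnion (Set.to_countable _) fun N _ => Grid_meas 𝒪 N
  have hanti : Antitone T := by
    intro M M' h x hx
    simp only [hT, Set.mem_iUnion] at hx ⊢
    obtain ⟨N, hN, hx⟩ := hx
    exact ⟨N, h.trans hN, hx⟩
  have hsub : ∀ M, T M ⊆ Cube := by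
    intro M x hx
    simp only [hT, Set.mem_iUnion] at hx
    obtain ⟨N, _, hx⟩ := hx
    exact hx.1
  have hfin : ∃ M, volume (T M) ≠ ⊤ :=
    ⟨0, ((measure_mono (hsub 0)).trans_lt (lt_top_iff_ne_top.2 Grid_cube_lt_top)).ne⟩
  have hlim := tendsto_measure_iInter_atTop (fun M => (hTm M).nullMeasurableSet) hanti hfin
  have hnull : volume (⋂ M, T M) = 0 := by
    refine measure_mono_null ?_ hm
    intro x hx
    rw [Set.mem_iInter] at hx
    have hxC : x ∈ Cube := hsub 0 (hx 0)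
    refine ⟨hxC, fun hxO => ?_⟩
    obtain ⟨M, hM⟩ := Grid_point 𝒪 ho hxC hxO
    have h1 := hx M
    simp only [hT, Set.mem_iUnion] at h1
    obtain ⟨N, hN, h1⟩ := h1
    exact h1.2 (hM N hN)
  rw [hnull] at hlim
  have hev := hlim.eventually (gt_mem_nhds (ENNReal.ofReal_pos.2 hv))
  obtain ⟨M, hM⟩ := Filter.eventually_atTop.1 hev
  refine ⟨M + 1, Nat.succ_pos M, fun N hN => ?_⟩
  refine lt_of_le_of_lt (measure_mono ?_) (hM M le_rfl)
  intro x hx
  simp only [hT, Set.mem_iUnion]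
  exact ⟨N, (Nat.le_succ M).trans hN, hx⟩

private theorem Grid_diff (N : ℕ) (hN : 0 < N) (j : Fin 3 → Fin N) {t : ℝ} (ht : 0 ≤ t)
    (ht1 : t < 1 / 4) : volume (gcube N j 0 \ gbox N j t) ≤
      ENNReal.ofReal (6 * t * (1 / (N : ℝ)) ^ 3) := by
  have hN0 : (0 : ℝ) < (N : ℝ) := by exact_mod_cast hN
  have hsub : gbox N j t ⊆ gcube N j 0 := by
    intro x hx
    refine ⟨fun i => ?_, fun i => ?_⟩
    · refine le_trans ?_ (hx i).1.le
      exact div_le_div_of_nonneg_right (by linarith) hN0.le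
    · refine (hx i).2.le.trans ?_
      exact div_le_div_of_nonneg_right (by linarith) hN0.le
  have hv1 : volume (gcube N j 0) = ENNReal.ofReal ((1 / (N : ℝ)) ^ 3) := by
    unfold gcube
    rw [Real.volume_Icc_pi]
    have e : ∀ i : Fin 3, (((j i : ℕ) : ℝ) + 1 - 0) / (N : ℝ) - (((j i : ℕ) : ℝ) + 0) / (N : ℝ) =
        1 / (N : ℝ) := fun i => by ring
    simp only [e, Finset.prod_const, Finset.card_univ, Fintype.card_fin]
    rw [ENNReal.ofReal_pow (by positivity)]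
  have hv2 : volume (gbox N j t) = ENNReal.ofReal (((1 - 2 * t) / (N : ℝ)) ^ 3) := by
    unfold gbox
    rw [volume_Box]
    have e : ∀ i : Fin 3, (((j i : ℕ) : ℝ) + 1 - t) / (N : ℝ) - (((j i : ℕ) : ℝ) + t) / (N : ℝ) =
        (1 - 2 * t) / (N : ℝ) := fun i => by ring
    simp only [e, Finset.prod_const, Finset.card_univ, Fintype.card_fin]
    rw [ENNReal.ofReal_pow (div_nonneg (by linarith) hN0.le)]
  rw [measure_sdiff hsub (isOpen_Box _ _).nullMeasurableSet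
    (by rw [hv2]; exact ENNReal.ofReal_ne_top), hv1, hv2, ← ENNReal.ofReal_sub _ (pow_nonneg (div_nonneg (by linarith) hN0.le) 3)]
  refine ENNReal.ofReal_le_ofReal ?_
  have h1 : ((1 - 2 * t) / (N : ℝ)) ^ 3 = (1 - 2 * t) ^ 3 * (1 / (N : ℝ)) ^ 3 := by
    rw [← mul_pow]
    ring
  have h2 : 1 - (1 - 2 * t) ^ 3 ≤ 6 * t := by nlinarith [sq_nonneg t, mul_nonneg ht (sq_nonneg t)]
  have h3 : (0 : ℝ) ≤ (1 / (N : ℝ)) ^ 3 := by positivity
  rw [h1]
  nlinarith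

theorem exists_grid_shrunk (𝒪 : Set (Set E3)) (ho : ∀ O ∈ 𝒪, IsOpen O)
    (hm : volume (Cube \ ⋃₀ 𝒪) = 0) (v : ℝ) (hv : 0 < v) : ∃ (N : ℕ) (t : ℝ), 0 < N ∧ 0 < t ∧
      t < 1 / 4 ∧ volume (Cube \ ⋃ j ∈ {j : Fin 3 → Fin N | ∃ O ∈ 𝒪, gcube N j 0 ⊆ O}, gbox N j t) <
        ENNReal.ofReal v := by
  obtain ⟨N, hN, hNv⟩ := exists_grid 𝒪 ho hm (v / 2) (by linarith)
  have hN0 : (0 : ℝ) < (N : ℝ) := by exact_mod_cast hN
  set t : ℝ := min (1 / 8) (v / 16) with ht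
  have ht0 : 0 < t := lt_min (by norm_num) (by linarith)
  have ht1 : t < 1 / 4 := (min_le_left _ _).trans_lt (by norm_num)
  have ht2 : t ≤ v / 16 := min_le_right _ _
  refine ⟨N, t, hN, ht0, ht1, ?_⟩
  have hsub : (Cube \ ⋃ j ∈ {j : Fin 3 → Fin N | ∃ O ∈ 𝒪, gcube N j 0 ⊆ O}, gbox N j t) ⊆
      (Cube \ ⋃ j ∈ {j : Fin 3 → Fin N | ∃ O ∈ 𝒪, gcube N j 0 ⊆ O}, gcube N j 0) ∪
        ⋃ j : Fin 3 → Fin N, (gcube N j 0 \ gbox N j t) := by
    intro x hx
    by_cases h : x ∈ ⋃ j ∈ {j : Fin 3 → Fin N | ∃ O ∈ 𝒪, gcube N j 0 ⊆ O}, gcube N j 0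
    · right
      simp only [Set.mem_iUnion] at h
      obtain ⟨j, hj, hxj⟩ := h
      rw [Set.mem_iUnion]
      refine ⟨j, hxj, fun hxb => hx.2 ?_⟩
      exact Set.mem_biUnion hj hxb
    · exact Or.inl ⟨hx.1, h⟩
  have hsum : volume (⋃ j : Fin 3 → Fin N, (gcube N j 0 \ gbox N j t)) ≤
      ENNReal.ofReal (6 * t) := by
    refine (measure_iUnion_fintype_le _ _).trans ?_
    refine (Finset.sum_le_sum fun j _ => Grid_diff N hN j ht0.le ht1).trans ?_
    rw [Finset.sum_const, Finset.card_univ, Fintype.card_pi, nsmul_eq_mul]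
    simp only [Fintype.card_fin, Finset.prod_const, Finset.card_univ]
    rw [← ENNReal.ofReal_natCast, ← ENNReal.ofReal_mul (by positivity)]
    refine ENNReal.ofReal_le_ofReal (le_of_eq ?_)
    push_cast
    field_simp
  calc volume (Cube \ ⋃ j ∈ {j : Fin 3 → Fin N | ∃ O ∈ 𝒪, gcube N j 0 ⊆ O}, gbox N j t)
      ≤ _ := measure_mono hsub
    _ ≤ _ := measure_union_le _ _
    _ < ENNReal.ofReal (v / 2) + ENNReal.ofReal (v / 2) := by
        refine ENNReal.add_lt_add_of_lt_of_le ?_ (hNv N le_rfl) ?_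
        · exact (hsum.trans_lt ENNReal.ofReal_lt_top).ne
        · refine hsum.trans (ENNReal.ofReal_le_ofReal ?_)
          linarith
    _ = ENNReal.ofReal v := by
        rw [← ENNReal.ofReal_add (by linarith) (by linarith)]
        congr 1
        ring

end Pool.Agent.QM59.G
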