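import Mathlib
import Pool.Agent.Lib.MP_decea1_gt_D.TT
import Pool.Agent.Lib.MP_decea1_gt_G.Grid

/-!
# MP_decea1_gt, block G, module Pieces: finitely many boxes on which `T ∈ TT` is affine

PROOF. `𝒪` = the family of the open sets `{x | x ∈ Cube ∧ ∀ᶠ y in 𝓝 x, T y = aff A c y}` for all `A`, `c`
(open: `eventually_eventually_nhds`); their union is `Reg T`, of full measure in the cube
(`IsTT.volume_reg`). `exists_grid_shrunk`, the good `j` enumerated by `Fin n`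
(`Finset.equivFin` of a `Finset.univ.filter` with classical decidability);
`Icc (a i) (b i) = gcube N j 0`, `a' = (j + t / 2) / N`, `a'' = (j + t) / N`, and symmetrically `b'`, `b''`.
-/

set_option autoImplicit false

open MeasureTheory Set Filter Topology

namespace Pool.Agent.QM59.G

/-- finitely many boxes on which `T` is affine with determinant one -/
structure Pcs (T : Equiv.Perm E3) (v : ℝ) (n : ℕ) (a a' a'' b'' b' b : Fin n → E3)
    (A : Fin n → D.SLQ) (c : Fin n → (Fin 3 → ℚ)) : Prop where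
  ord : ∀ i j, a i j < a' i j ∧ a' i j < a'' i j ∧ a'' i j < b'' i j ∧ b'' i j < b' i j ∧
    b' i j < b i j
  sub : ∀ i, Icc (a i) (b i) ⊆ Cube
  disj : Pairwise fun i j => Disjoint (Box (a i) (b i)) (Box (a j) (b j))
  eq : ∀ i, ∀ x ∈ Icc (a i) (b i), T x = D.aff (A i) (c i) x
  map : ∀ i, ∀ x ∈ Icc (a i) (b i), T x ∈ Cube
  vol : volume (Cube \ ⋃ i, Box (a'' i) (b'' i)) < ENNReal.ofReal v

theorem exists_pcs (T : Equiv.Perm E3) (hT : T ∈ D.TT) (v : ℝ) (hv : 0 < v) :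
    ∃ (n : ℕ) (a a' a'' b'' b' b : Fin n → E3) (A : Fin n → D.SLQ) (c : Fin n → (Fin 3 → ℚ)),
      Pcs T v n a a' a'' b'' b' b A c := by
  classical
  have hT' : D.IsTT ⊤ T := hT
  obtain ⟨𝒪, h𝒪⟩ : ∃ 𝒪 : Set (Set E3), 𝒪 = {O | ∃ (A : D.SLQ) (c : Fin 3 → ℚ),
      O = {x | x ∈ Cube ∧ ∀ᶠ y in 𝓝 x, T y = D.aff A c y}} := ⟨_, rfl⟩
  have ho : ∀ O ∈ 𝒪, IsOpen O := by
    rw [h𝒪]
    rintro O ⟨A, c, rfl⟩
    have h2 : IsOpen {x : E3 | ∀ᶠ y in 𝓝 x, T y = D.aff A c y} := by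
      rw [isOpen_iff_mem_nhds]
      intro x hx
      exact eventually_eventually_nhds.2 hx
    exact D.isOpen_cube.inter h2
  have hm : volume (Cube \ ⋃₀ 𝒪) = 0 := by
    refine measure_mono_null ?_ hT'.volume_reg
    rintro x ⟨hx, hn⟩
    refine ⟨hx, fun hr => hn ?_⟩
    obtain ⟨-, A, c, hc⟩ := hr
    rw [mem_sUnion]
    refine ⟨{x | x ∈ Cube ∧ ∀ᶠ y in 𝓝 x, T y = D.aff A c y}, ?_, hx, hc⟩
    rw [h𝒪]
    exact ⟨A, c, rfl⟩
  obtain ⟨N, t, hN, ht, ht4, hvol⟩ := exists_grid_shrunk 𝒪 ho hm v hv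
  have hN' : (0 : ℝ) < N := by exact_mod_cast hN
  obtain ⟨gd, hgd⟩ : ∃ gd : Finset (Fin 3 → Fin N),
      gd = Finset.univ.filter fun j => ∃ O ∈ 𝒪, gcube N j 0 ⊆ O := ⟨_, rfl⟩
  have hmem : ∀ j, j ∈ gd ↔ ∃ O ∈ 𝒪, gcube N j 0 ⊆ O := by
    intro j
    rw [hgd, Finset.mem_filter]
    exact ⟨fun h => h.2, fun h => ⟨Finset.mem_univ _, h⟩⟩
  obtain ⟨jj, hjj⟩ : ∃ jj : Fin gd.card → (Fin 3 → Fin N),
      jj = fun i => (gd.equivFin.symm i : Fin 3 → Fin N) := ⟨_, rfl⟩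
  have hinj : ∀ i i', i ≠ i' → jj i ≠ jj i' := by
    intro i i' h h'
    apply h
    rw [hjj] at h'
    exact gd.equivFin.symm.injective (Subtype.ext h')
  have hsur : ∀ j ∈ gd, ∃ i, jj i = j := by
    intro j hj
    refine ⟨gd.equivFin ⟨j, hj⟩, ?_⟩
    rw [hjj]
    simp
  have hgood : ∀ i, ∃ (A : D.SLQ) (c : Fin 3 → ℚ), ∀ x ∈ gcube N (jj i) 0,
      x ∈ Cube ∧ ∀ᶠ y in 𝓝 x, T y = D.aff A c y := by
    intro i
    have hi : jj i ∈ gd := by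
      rw [hjj]
      exact (gd.equivFin.symm i).2
    obtain ⟨O, hO, hsub⟩ := (hmem _).1 hi
    rw [h𝒪] at hO
    obtain ⟨A, c, rfl⟩ := hO
    exact ⟨A, c, fun x hx => hsub hx⟩
  choose A c hAc using hgood
  refine ⟨gd.card, fun i k => ((jj i k : ℕ) + (0 : ℝ)) / (N : ℝ),
    fun i k => ((jj i k : ℕ) + t / 2) / (N : ℝ), fun i k => ((jj i k : ℕ) + t) / (N : ℝ),
    fun i k => ((jj i k : ℕ) + 1 - t) / (N : ℝ), fun i k => ((jj i k : ℕ) + 1 - t / 2) / (N : ℝ),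
    fun i k => ((jj i k : ℕ) + 1 - (0 : ℝ)) / (N : ℝ), A, c, ?_⟩
  constructor
  · intro i k
    refine ⟨?_, ?_, ?_, ?_, ?_⟩ <;>
      exact div_lt_div_of_pos_right (by linarith) hN'
  · intro i x hx
    exact (hAc i x hx).1
  · intro i i' h
    exact gbox_disjoint N (hinj i i' h) le_rfl
  · intro i x hx
    exact (hAc i x hx).2.self_of_nhds
  · intro i x hx
    have h1 := hAc i x hx
    exact D.map_reg hT'.off h1.1 (A := A i) ⟨c i, h1.2⟩
  · refine lt_of_le_of_lt (measure_mono ?_) hvol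
    rintro x ⟨hx, hn⟩
    refine ⟨hx, fun h => hn ?_⟩
    rw [mem_iUnion₂] at h
    obtain ⟨j, hj, hxj⟩ := h
    obtain ⟨i, hi⟩ := hsur j ((hmem j).2 hj)
    rw [mem_iUnion]
    refine ⟨i, ?_⟩
    rw [← hi] at hxj
    exact hxj

end Pool.Agent.QM59.G
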