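import Mathlib
import Pool.Agent.Lib.MP_decea1_gt_A.Hole
import Pool.Agent.Lib.MP_decea1_gt_A.Bump

/-!
# MP_decea1_gt, block G, module Pts: choice of points, the cube without finitely many points

PROOF. `choose_pts`: induction on `n` (`Fin.cons` or `Fin.snoc`): the next point avoids the finitely
many points `T (p i)` and `T.symm (p i)`. `cube_diff_finite`: enumerate `F ∩ Cube` injectively by
`Fin n` (`Finset.equivFin`) and apply `isConnected_diff_iUnion_Icc` to the degenerate boxes
`Icc x x = {x}` (`isOpen_Cube`, `isConnected_Cube`).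
-/

set_option autoImplicit false

open MeasureTheory Set Filter Topology

namespace Pool.Agent.QM59.G

theorem choose_pts (n : ℕ) (S : Fin n → Set E3) (hS : ∀ i, (S i).Infinite) (T : Equiv.Perm E3) :
    ∃ p : Fin n → E3, (∀ i, p i ∈ S i) ∧ ∀ i j, i ≠ j → T (p i) ≠ p j := by
  induction n with
  | zero => exact ⟨fun i => i.elim0, fun i => i.elim0, fun i => i.elim0⟩
  | succ n ih =>
    obtain ⟨p, hp, hT⟩ := ih (fun i => S i.castSucc) (fun i => hS i.castSucc)
    have hfin : (Set.range (fun i => T (p i)) ∪ Set.range (fun i => T.symm (p i))).Finite :=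
      (Set.finite_range _).union (Set.finite_range _)
    obtain ⟨x, hx, hxn⟩ := ((hS (Fin.last n)).diff hfin).nonempty
    have hx1 : ∀ i, T (p i) ≠ x := fun i h => hxn (Or.inl ⟨i, h⟩)
    have hx2 : ∀ i, T x ≠ p i := fun i h => hxn (Or.inr ⟨i, by
      show T.symm (p i) = x
      rw [← h, Equiv.symm_apply_apply]⟩)
    refine ⟨Fin.snoc (α := fun _ => E3) p x, ?_, ?_⟩
    · intro i
      refine Fin.lastCases ?_ (fun i => ?_) i
      · rw [Fin.snoc_last]
        exact hx
      · rw [Fin.snoc_castSucc]
        exact hp i
    · intro i j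
      refine Fin.lastCases ?_ (fun i => ?_) i
      · refine Fin.lastCases ?_ (fun j => ?_) j
        · intro h
          exact absurd rfl h
        · intro _
          rw [Fin.snoc_last, Fin.snoc_castSucc]
          exact hx2 j
      · refine Fin.lastCases ?_ (fun j => ?_) j
        · intro _
          rw [Fin.snoc_last, Fin.snoc_castSucc]
          exact hx1 i
        · intro h
          rw [Fin.snoc_castSucc, Fin.snoc_castSucc]
          exact hT i j fun h' => h (by rw [h'])

theorem cube_diff_finite (F : Set E3) (hF : F.Finite) : IsConnected (Cube \ F) := by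
  classical
  have hfin : (F ∩ Cube).Finite := hF.subset Set.inter_subset_left
  let e := hfin.toFinset.equivFin.symm
  have he : ∀ i, (e i : E3) ∈ F ∩ Cube := fun i => by
    have h := (e i).2
    rwa [Set.Finite.mem_toFinset] at h
  have h := isConnected_diff_iUnion_Icc Cube isOpen_Cube isConnected_Cube
    hfin.toFinset.card (fun i => (e i : E3)) (fun i => (e i : E3))
    (fun i => by
      rw [Set.Icc_self, Set.singleton_subset_iff]
      exact (he i).2)
    (fun i j => le_refl _)
    (fun i j hij => by
      show Disjoint (Icc (e i : E3) (e i : E3)) (Icc (e j : E3) (e j : E3))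
      rw [Set.Icc_self, Set.Icc_self, Set.disjoint_singleton]
      intro h
      exact hij (e.injective (Subtype.ext h)))
  have hs : Cube \ F = Cube \ ⋃ i, Icc (e i : E3) (e i : E3) := by
    ext x
    simp only [Set.Icc_self, Set.mem_diff, Set.mem_iUnion, Set.mem_singleton_iff, not_exists]
    constructor
    · rintro ⟨hx, hxF⟩
      exact ⟨hx, fun i hi => hxF (by rw [hi]; exact (he i).1)⟩
    · rintro ⟨hx, hxi⟩
      refine ⟨hx, fun hxF => ?_⟩
      have hm : x ∈ hfin.toFinset := by
        rw [Set.Finite.mem_toFinset]
        exact ⟨hxF, hx⟩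
      refine hxi (e.symm ⟨x, hm⟩) ?_
      rw [Equiv.apply_symm_apply]
  rw [hs]
  exact h

/-- open boxes are infinite -/
theorem infinite_Box (a b : E3) (h : ∀ i, a i < b i) : (Box a b).Infinite := by
  intro hf
  have h0 : volume (Box a b) = 0 := hf.measure_zero volume
  rw [volume_Box] at h0
  rw [Finset.prod_eq_zero_iff] at h0
  obtain ⟨i, _, hi⟩ := h0
  rw [ENNReal.ofReal_eq_zero] at hi
  have := h i
  linarith

end Pool.Agent.QM59.G
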