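import Mathlib
import Pool.Agent.Lib.MP_decea1_gt_B.B1a
import Pool.Agent.Lib.MP_decea1_gt_G.Multi
import Pool.Agent.Lib.MP_decea1_gt_G.Pts
import Pool.Agent.Lib.MP_decea1_gt_G.Glue
import Pool.Agent.Lib.MP_decea1_gt_G.Pieces

/-!
# MP_decea1_gt, block G, module RLF: a smooth isotopic map which is equal to `T` on the pieces

PROOF. `affP A c` = the affine permutation, `IsDif`. `p i ∈ Box (a'' i) (b'' i)` with `T (p i) ≠
p j` for `i ≠ j` (`choose_pts`, `infinite_Box`). `M` from `multi` (`U = Cube`,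
`cube_diff_finite`, `t i = T (p i)`, matrices `rm (A i)`); `p` is injective because the boxes
are disjoint. Let `ρ > 0` be such that `M x = T (p i) + rm (A i) (x - p i)` for `x ∈ ball (p i)
ρ`, all `i` (finitely many). `q ∈ (0, 1]` with `q * 2 < ρ`. `lam i` from `CL (a i) (b i) (a' i)
(b' i) (p i)` with `I = univ` and `q`: `lam i x = p i + q • (x - p i)` on `Icc (a' i) (b' i)`,
in `ball (p i) ρ` (side lengths at most one). `L` from `glue` with `U i = Box (a i) (b i)`.
`lam' i = affP * lam i * affP⁻¹`, `InIso (affP '' Box) (lam' i)` (`InIso.conj`), the sets `affP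
'' Box (a i) (b i) = T '' Box (a i) (b i)` are pairwise disjoint and in the cube (`P.map`); `L'`
from `glue`. `F = L'⁻¹ * M * L`. For `x ∈ Box (a' i) (b' i)`: `L x = p i + q • (x - p i)`, `M (L
x) = T (p i) + q • rm (A i) (x - p i) = affP (lam i x) = lam' i (affP x) = L' (T x)`, so `F x =
T x`. `W = ⋃ i, Box (a' i) (b' i)`; there `F = aff (A i) (c i)` locally, so `jac F = 1`
(`D.lin_det`, `aff_hasFDerivAt`).
-/

set_option autoImplicit false

open MeasureTheory Set Filter Topology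

namespace Pool.Agent.QM59.G

/-- the affine permutation -/
noncomputable def affP (A : D.SLQ) (c : Fin 3 → ℚ) : Equiv.Perm E3 := (D.affH A c).toEquiv

theorem affP_apply (A : D.SLQ) (c : Fin 3 → ℚ) (x : E3) : affP A c x = D.aff A c x := rfl

private theorem contDiff_aff (A : D.SLQ) (c : Fin 3 → ℚ) : ContDiff ℝ smo (D.aff A c) :=
  (D.lin A).contDiff.add contDiff_const

theorem isDif_affP (A : D.SLQ) (c : Fin 3 → ℚ) : IsDif (affP A c) :=
  ⟨contDiff_aff A c, contDiff_aff A⁻¹ (D.ib A c)⟩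

private theorem norm_sub_le_one {x y : E3} (hx : x ∈ Cube) (hy : y ∈ Cube) : ‖x - y‖ ≤ 1 := by
  rw [pi_norm_le_iff_of_nonneg zero_le_one]
  intro i
  have h1 := hx i
  have h2 := hy i
  simp only [Pi.zero_apply, Pi.one_apply] at h1 h2
  rw [Pi.sub_apply, Real.norm_eq_abs, abs_le]
  constructor <;> linarith [h1.1, h1.2, h2.1, h2.2]

theorem exists_F (T : Equiv.Perm E3) (v : ℝ) (n : ℕ) (a a' a'' b'' b' b : Fin n → E3)
    (A : Fin n → D.SLQ) (c : Fin n → (Fin 3 → ℚ)) (P : Pcs T v n a a' a'' b'' b' b A c) :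
    ∃ F : Equiv.Perm E3, InIso Cube F ∧ ∀ i, ∀ x ∈ Box (a' i) (b' i),
      F x = T x ∧ jac (fun y => F y) x = 1 := by
  classical
  have hord := P.ord
  have hBI : ∀ i, Box (a i) (b i) ⊆ Icc (a i) (b i) := fun i => Box_subset_Icc _ _
  have hBC : ∀ i, Box (a i) (b i) ⊆ Cube := fun i => (hBI i).trans (P.sub i)
  have hB'B : ∀ i, Box (a' i) (b' i) ⊆ Box (a i) (b i) := fun i x hx k =>
    ⟨(hord i k).1.trans (hx k).1, (hx k).2.trans (hord i k).2.2.2.2⟩
  have hB''B' : ∀ i, Box (a'' i) (b'' i) ⊆ Box (a' i) (b' i) := fun i x hx k =>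
    ⟨(hord i k).2.1.trans (hx k).1, (hx k).2.trans (hord i k).2.2.2.1⟩
  -- points
  obtain ⟨p, hp, hpp⟩ := choose_pts n (fun i => Box (a'' i) (b'' i))
    (fun i => infinite_Box _ _ fun k => (hord i k).2.2.1) T
  have hp' : ∀ i, p i ∈ Box (a' i) (b' i) := fun i => hB''B' i (hp i)
  have hpB : ∀ i, p i ∈ Box (a i) (b i) := fun i => hB'B i (hp' i)
  have hpinj : Function.Injective p := by
    intro i j hij
    by_contra hne
    exact (Set.disjoint_left.mp (P.disj hne)) (hpB i) (hij ▸ hpB j)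
  -- the germs
  obtain ⟨M, hM, hMp⟩ := multi n Cube isOpen_Cube (fun F hF => cube_diff_finite F hF) p
    (fun i => T (p i)) (fun i => hBC i (hpB i)) (fun i => P.map i _ (hBI i (hpB i))) hpinj
    (fun i j hij => hpinj (T.injective hij)) (fun i j hij => (hpp j i (Ne.symm hij)).symm)
    (fun i => D.rm (A i)) (fun i => D.rm_det (A i))
  have hρ : ∀ i, ∃ ρ : ℝ, 0 < ρ ∧ ∀ x ∈ Metric.ball (p i) ρ,
      M x = T (p i) + (D.rm (A i)).mulVec (x - p i) := fun i => by
    obtain ⟨ρ, h1, h2⟩ := Metric.eventually_nhds_iff_ball.mp (hMp i)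
    exact ⟨ρ, h1, h2⟩
  choose ρ hρ0 hρM using hρ
  obtain ⟨q, ⟨hq, hq0, hq1⟩⟩ : ∃ q : ℝ, (∀ i, q < ρ i) ∧ 0 < q ∧ q < 1 := by
    have h1 : ∀ᶠ q : ℝ in 𝓝[>] 0, ∀ i, q < ρ i := by
      rw [Filter.eventually_all]
      exact fun i => (eventually_lt_nhds (hρ0 i)).filter_mono nhdsWithin_le_nhds
    have h2 : ∀ᶠ q : ℝ in 𝓝[>] 0, 0 < q := eventually_mem_nhdsWithin
    have h3 : ∀ᶠ q : ℝ in 𝓝[>] 0, q < 1 :=
      (eventually_lt_nhds one_pos).filter_mono nhdsWithin_le_nhds
    exact (h1.and (h2.and h3)).exists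
  -- contractions
  have hlam : ∀ i, ∃ lam : Equiv.Perm E3, InIso (Box (a i) (b i)) lam ∧
      ∀ x ∈ Icc (a' i) (b' i), lam x = p i + q • (x - p i) := by
    intro i
    obtain ⟨lam, h1, h2⟩ := CL (a i) (b i) (a' i) (b' i) (p i) (fun k => (hord i k).1)
      (fun k => (hord i k).2.2.2.2) (Box_subset_Icc _ _ (hp' i)) Finset.univ q hq0 hq1.le
    refine ⟨lam, h1, fun x hx => ?_⟩
    funext k
    rw [h2 x hx k, if_pos (Finset.mem_univ k)]
    simp [smul_eq_mul]
  choose lam hlam1 hlam2 using hlam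
  obtain ⟨L, hL, hLx, -, -⟩ := glue n (fun i => Box (a i) (b i)) P.disj Cube hBC lam hlam1
  -- the contractions in the image
  have hTa : ∀ i, ∀ x ∈ Box (a i) (b i), affP (A i) (c i) x = T x := fun i x hx => by
    rw [affP_apply, P.eq i x (hBI i hx)]
  obtain ⟨L', hL', hLx', -, -⟩ := glue n (fun i => affP (A i) (c i) '' Box (a i) (b i))
    (fun i j hij => by
      refine Set.disjoint_left.mpr ?_
      rintro x ⟨y, hy, rfl⟩ ⟨z, hz, hzy⟩
      rw [hTa i y hy, hTa j z hz] at hzy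
      have hyz := T.injective hzy
      subst hyz
      exact (Set.disjoint_left.mp (P.disj hij)) hy hz)
    Cube (fun i => by
      rintro x ⟨y, hy, rfl⟩
      rw [hTa i y hy]
      exact P.map i y (hBI i hy))
    (fun i => affP (A i) (c i) * lam i * (affP (A i) (c i))⁻¹)
    (fun i => (hlam1 i).conj (isDif_affP _ _) subset_rfl)
  have key : ∀ i, ∀ x ∈ Box (a' i) (b' i), (L'⁻¹ * M * L) x = T x := by
    intro i x hx
    have hxB := hB'B i hx
    have e1 : L x = p i + q • (x - p i) := by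
      rw [hLx i x hxB, hlam2 i x (Box_subset_Icc _ _ hx)]
    have hin : L x ∈ Metric.ball (p i) (ρ i) := by
      rw [e1, Metric.mem_ball, dist_eq_norm, add_sub_cancel_left, norm_smul, Real.norm_eq_abs,
        abs_of_pos hq0]
      calc q * ‖x - p i‖ ≤ q * 1 :=
            mul_le_mul_of_nonneg_left (norm_sub_le_one (hBC i hxB) (hBC i (hpB i))) hq0.le
        _ = q := mul_one q
        _ < ρ i := hq i
    have e2 : M (L x) = T (p i) + (D.rm (A i)).mulVec (L x - p i) := hρM i _ hin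
    have e3 : M (L x) = affP (A i) (c i) (lam i x) := by
      rw [e2, e1, affP_apply, hlam2 i x (Box_subset_Icc _ _ hx), ← hTa i (p i) (hpB i), affP_apply,
        add_sub_cancel_left]
      simp only [D.aff, Matrix.mulVec_add]
      abel
    have e4 : L' (affP (A i) (c i) x) = affP (A i) (c i) (lam i x) := by
      rw [hLx' i _ ⟨x, hxB, rfl⟩]
      simp
    have e5 : (L'⁻¹ * M * L) x = L'⁻¹ (M (L x)) := rfl
    rw [e5, e3, ← e4, ← hTa i x hxB]
    exact L'.symm_apply_apply _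
  refine ⟨L'⁻¹ * M * L, (hL'.inv.mul hM).mul hL, fun i x hx => ⟨key i x hx, ?_⟩⟩
  have hev : (fun y => (L'⁻¹ * M * L) y) =ᶠ[𝓝 x] D.aff (A i) (c i) := by
    filter_upwards [(isOpen_Box (a' i) (b' i)).mem_nhds hx] with y hy
    rw [key i y hy, P.eq i y (hBI i (hB'B i hy))]
  rw [jac, hev.fderiv_eq, (D.aff_hasFDerivAt (A i) (c i) x).fderiv, D.lin_det]

end Pool.Agent.QM59.G
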