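import Mathlib
import Pool.Agent.Lib.MP_decea1_gt_A.A4
import Pool.Agent.Lib.MP_decea1_gt_A.Hole
import Pool.Agent.Lib.MP_decea1_gt_D.Hat
import Pool.Agent.Lib.MP_decea1_gt_G.RLF

/-!
# MP_decea1_gt, block G, module RL (D2.1): every rational piecewise affine map is approximable

PROOF. `RL0`: pieces from `exists_pcs`, `F` from `exists_F`. `K = ⋃ i, Icc (a'' i) (b'' i)` is compact,
contained in the open set `W = ⋃ i, Box (a' i) (b' i)` and in the cube; the closed boxes are pairwise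
disjoint (they are inside the open boxes `Box (a i) (b i)`), so `Cube \ K` is connected
(`isConnected_diff_iUnion_Icc`). `A4one` (`U = Cube`): `m` with `InIso (Cube \ K) m`, `Vol (F * m)`;
`s = F * m`, for `x ∈ K`: `s x = F x = T x`. `App s T v` with the closed set
`(⋃ i, Box (a'' i) (b'' i))ᶜ` (`P.vol`). `RL`: `s ∈ Γ` by `hΓ.iso`.
-/

set_option autoImplicit false

open MeasureTheory Set Filter Topology

namespace Pool.Agent.QM59.G

theorem RL0 (T : Equiv.Perm E3) (hT : T ∈ D.TT) (v : ℝ) (hv : 0 < v) :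
    ∃ s : Equiv.Perm E3, InIso Cube s ∧ Vol s ∧ App s (fun x => T x) v := by
  obtain ⟨n, a, a', a'', b'', b', b, A, c, P⟩ := exists_pcs T hT v hv
  obtain ⟨F, hF, hFT⟩ := exists_F T v n a a' a'' b'' b' b A c P
  have hord := P.ord
  have hIB' : ∀ i, Icc (a'' i) (b'' i) ⊆ Box (a' i) (b' i) := fun i =>
    Icc_subset_Box _ _ _ _ (fun k => (hord i k).2.1) (fun k => (hord i k).2.2.2.1)
  have hB'B : ∀ i, Box (a' i) (b' i) ⊆ Box (a i) (b i) := fun i x hx k =>
    ⟨(hord i k).1.trans (hx k).1, (hx k).2.trans (hord i k).2.2.2.2⟩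
  have hIC : ∀ i, Icc (a'' i) (b'' i) ⊆ Cube := fun i =>
    ((hIB' i).trans (hB'B i)).trans ((Box_subset_Icc _ _).trans (P.sub i))
  have hK : IsCompact (⋃ i, Icc (a'' i) (b'' i)) := isCompact_iUnion fun i => isCompact_Icc
  have hKC : (⋃ i, Icc (a'' i) (b'' i)) ⊆ Cube := iUnion_subset hIC
  have hcon : IsConnected (Cube \ ⋃ i, Icc (a'' i) (b'' i)) :=
    isConnected_diff_iUnion_Icc Cube isOpen_Cube isConnected_Cube n a'' b'' hIC
      (fun i k => (hord i k).2.2.1.le) fun i j hij =>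
        (P.disj hij).mono ((hIB' i).trans (hB'B i)) ((hIB' j).trans (hB'B j))
  obtain ⟨m, hm, hvol⟩ := A4one Cube isOpen_Cube (⋃ i, Icc (a'' i) (b'' i)) hK hKC hcon F hF
    (⋃ i, Box (a' i) (b' i)) (isOpen_iUnion fun i => isOpen_Box _ _)
    (iUnion_mono hIB') (fun x hx => by
      obtain ⟨i, hi⟩ := mem_iUnion.1 hx
      exact (hFT i x hi).2)
  refine ⟨F * m, hF.mul (hm.mono sdiff_subset), hvol, (⋃ i, Box (a'' i) (b'' i))ᶜ,
    (isOpen_iUnion fun i => isOpen_Box _ _).isClosed_compl, ?_, fun x hx hxK => ?_⟩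
  · have h1 : (⋃ i, Box (a'' i) (b'' i))ᶜ ∩ Cube = Cube \ ⋃ i, Box (a'' i) (b'' i) := by
      rw [inter_comm, sdiff_eq]
    rw [h1]
    exact P.vol
  · obtain ⟨i, hi⟩ := mem_iUnion.1 (not_notMem.1 hxK)
    have hi' : x ∈ Icc (a'' i) (b'' i) := Box_subset_Icc _ _ hi
    have h1 : m x = x := hm.idOff x fun hh => hh.2 (mem_iUnion.2 ⟨i, hi'⟩)
    change F (m x) = T x
    rw [h1]
    exact (hFT i x (hIB' i hi')).1

end Pool.Agent.QM59.G

namespace Pool.Agent.QM59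

variable {Γ : Subgroup (Equiv.Perm E3)}

/-- D2.1 -/
theorem RL (hΓ : Good Γ) : D.TT ≤ hatG hΓ := by
  intro T hT v hv
  obtain ⟨s, h1, h2, h3⟩ := G.RL0 T hT v hv
  exact ⟨s, hΓ.iso s h1 h2, h3⟩

end Pool.Agent.QM59
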