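import Mathlib
import Pool.Agent.Lib.MP_decea1_gt_A.A1
import Pool.Agent.Lib.MP_decea1_gt_A.Iso1

/-!
# MP_decea1_gt, block G, module GermId: germs with trivial first order part

PROOF. Let `g = k - id` on `W`: smooth, `g z0 = 0`, `fderiv g z0 = 0`. `r0 > 0` with
`closedBall z0 (2 r0) ⊆ W ∩ U`. `fderiv g` is `C¹` near `z0`, so `‖fderiv g z‖ ≤ C ‖z - z0‖` and
`‖g z‖ ≤ C ‖z - z0‖ ^ 2` on `closedBall z0 r1` (mean value inequality on the ball, twice; or only
`‖fderiv g z‖ ≤ ε` on a small ball and `‖g z‖ ≤ ε ‖z - z0‖`, which is enough). Bump `χ` from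
`exists_bump (ball 0 2) (closedBall 0 1)`, `‖fderiv χ‖ ≤ C'` (compact support). For `ρ > 0` small
`v z = χ (ρ⁻¹ • (z - z0)) • g z` (zero off `ball z0 (2 ρ)`): smooth, support in
`closedBall z0 (2 ρ) ⊆ U ∩ W`, `‖fderiv v z‖ ≤ C' ρ⁻¹ * ε * 2 ρ + ε ≤ (2 C' + 1) ε ≤ 1/2`.
`A1`, and `v = g` near `z0`.
-/

set_option autoImplicit false

open MeasureTheory Set Filter Topology

namespace Pool.Agent.QM59.G

private theorem germId_small (W : Set E3) (hW : IsOpen W) (z0 : E3) (hzW : z0 ∈ W) (g : E3 → E3)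
    (hg : ContDiffOn ℝ smo g W) (h1 : fderiv ℝ g z0 = 0) (ε : ℝ) (hε : 0 < ε) :
    ∃ δ : ℝ, 0 < δ ∧ Metric.ball z0 δ ⊆ W ∧ ∀ z ∈ Metric.ball z0 δ, ‖fderiv ℝ g z‖ ≤ ε := by
  have hc : ContinuousOn (fderiv ℝ g) W := hg.continuousOn_fderiv_of_isOpen hW (by simp)
  have hca : ContinuousAt (fderiv ℝ g) z0 := hc.continuousAt (hW.mem_nhds hzW)
  have h2 : ∀ᶠ z in 𝓝 z0, ‖fderiv ℝ g z‖ < ε := by
    have h3 := hca.norm
    refine h3.eventually_lt_const ?_
    simp only [h1, norm_zero]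
    exact hε
  obtain ⟨δ, hδ, hb⟩ := Metric.eventually_nhds_iff_ball.1 (h2.and (hW.mem_nhds hzW))
  exact ⟨δ, hδ, fun z hz => (hb z hz).2, fun z hz => (hb z hz).1.le⟩

theorem germ_id (U W : Set E3) (hU : IsOpen U) (hW : IsOpen W) (z0 : E3) (hzU : z0 ∈ U)
    (hzW : z0 ∈ W) (k : E3 → E3) (hk : ContDiffOn ℝ smo k W) (h0 : k z0 = z0)
    (h1 : fderiv ℝ k z0 = ContinuousLinearMap.id ℝ E3) :
    ∃ u : Equiv.Perm E3, InIso U u ∧ ∀ᶠ z in 𝓝 z0, u z = k z := by
  set g : E3 → E3 := fun z => k z - z with hg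
  have hgW : ContDiffOn ℝ smo g W := hk.sub contDiffOn_id
  have hkd : DifferentiableAt ℝ k z0 :=
    (hk.contDiffAt (hW.mem_nhds hzW)).differentiableAt (by simp)
  have hg0 : g z0 = 0 := by rw [hg]; simp only; rw [h0, sub_self]
  have hg1 : fderiv ℝ g z0 = 0 := by
    have h2 : HasFDerivAt g (fderiv ℝ k z0 - ContinuousLinearMap.id ℝ E3) z0 :=
      hkd.hasFDerivAt.sub (hasFDerivAt_id z0)
    rw [h2.fderiv, h1, sub_self]
  obtain ⟨χ, hχs, hχ01, ⟨W', hW', hKW', hχ1⟩, L, hL, hLU, hχ0⟩ :=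
    exists_bump (Metric.ball 0 2) (Metric.closedBall 0 1) Metric.isOpen_ball
      (isCompact_closedBall _ _) (Metric.closedBall_subset_ball (by norm_num))
  have hcs : HasCompactSupport χ := HasCompactSupport.intro hL hχ0
  obtain ⟨C, hC⟩ := (hχs.continuous_fderiv (by simp)).bounded_above_of_compact_support
    (hcs.fderiv ℝ)
  have hC0 : 0 ≤ C := (norm_nonneg _).trans (hC 0)
  have hε : 0 < 1 / (2 * (2 * C + 1)) := by positivity
  obtain ⟨δ, hδ, hδW, hδε⟩ := germId_small (W ∩ U) (hW.inter hU) z0 ⟨hzW, hzU⟩ g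
    (hgW.mono inter_subset_left) hg1 _ hε
  set ε : ℝ := 1 / (2 * (2 * C + 1)) with hεd
  have hε2 : (2 * C + 1) * ε = 1 / 2 := by
    rw [hεd]
    field_simp
  have hgb : ∀ z ∈ Metric.ball z0 δ, ‖g z‖ ≤ ε * ‖z - z0‖ := by
    intro z hz
    have h3 := Convex.norm_image_sub_le_of_norm_fderiv_le (𝕜 := ℝ) (f := g)
      (s := Metric.ball z0 δ) (C := ε) (x := z0) (y := z)
      (fun y hy => (hgW.contDiffAt (hW.mem_nhds (hδW hy).1)).differentiableAt (by simp))
      (fun y hy => hδε y hy) (convex_ball z0 δ) (Metric.mem_ball_self hδ) hz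
    rwa [hg0, sub_zero] at h3
  set ρ : ℝ := δ / 4 with hρ
  have hρ0 : 0 < ρ := by positivity
  set w : E3 → E3 := fun z => ρ⁻¹ • (z - z0) with hw
  have hws : ContDiff ℝ smo w := by
    have h3 : ContDiff ℝ smo (fun z : E3 => z - z0) := contDiff_id.sub contDiff_const
    exact (contDiff_const (c := (ρ⁻¹ : ℝ))).smul h3
  have hwc : Continuous w := hws.continuous
  have hwn : ∀ z, ‖w z‖ = ρ⁻¹ * ‖z - z0‖ := by
    intro z
    rw [hw]
    simp only
    rw [norm_smul, Real.norm_eq_abs, abs_of_pos (inv_pos.2 hρ0)]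
  set v : E3 → E3 := fun z => χ (w z) • g z with hv
  -- off the small ball `v` vanishes near the point
  have hoff : ∀ z, w z ∉ L → v =ᶠ[𝓝 z] fun _ => 0 := by
    intro z hz
    have h3 : ∀ᶠ y in 𝓝 z, w y ∈ Lᶜ :=
      hwc.continuousAt.eventually_mem (hL.isClosed.isOpen_compl.mem_nhds hz)
    filter_upwards [h3] with y hy
    rw [hv]
    simp only
    rw [hχ0 _ hy, zero_smul]
  have hin : ∀ z, w z ∈ L → ‖z - z0‖ < 2 * ρ := by
    intro z hz
    have h3 := mem_ball_zero_iff.1 (hLU hz)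
    rw [hwn, inv_mul_lt_iff₀ hρ0] at h3
    linarith
  have hinb : ∀ z, w z ∈ L → z ∈ Metric.ball z0 δ := by
    intro z hz
    rw [Metric.mem_ball, dist_eq_norm]
    have h3 := hin z hz
    rw [hρ] at h3
    linarith
  have hvs : ContDiff ℝ smo v := by
    rw [contDiff_iff_contDiffAt]
    intro z
    by_cases hz : w z ∈ L
    · have h3 := hδW (hinb z hz)
      exact ((hχs.comp hws).contDiffAt).smul (hgW.contDiffAt (hW.mem_nhds h3.1))
    · exact contDiffAt_const.congr_of_eventuallyEq (hoff z hz)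
  have hvD : ∀ z, ‖fderiv ℝ v z‖ ≤ 1 / 2 := by
    intro z
    by_cases hz : w z ∈ L
    · have hzb := hinb z hz
      have h3 := hδW hzb
      have hgd : HasFDerivAt g (fderiv ℝ g z) z :=
        ((hgW.contDiffAt (hW.mem_nhds h3.1)).differentiableAt (by simp)).hasFDerivAt
      have hwd : HasFDerivAt w (ρ⁻¹ • ContinuousLinearMap.id ℝ E3) z :=
        ((hasFDerivAt_id z).sub_const z0).const_smul ρ⁻¹
      have hχd : HasFDerivAt (fun z => χ (w z))
          ((fderiv ℝ χ (w z)).comp (ρ⁻¹ • ContinuousLinearMap.id ℝ E3)) z :=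
        ((hχs.differentiable (by simp)) (w z)).hasFDerivAt.comp z hwd
      have h4 : HasFDerivAt v (χ (w z) • fderiv ℝ g z + ((fderiv ℝ χ (w z)).comp
          (ρ⁻¹ • ContinuousLinearMap.id ℝ E3)).smulRight (g z)) z := hχd.smul hgd
      rw [h4.fderiv]
      refine (norm_add_le _ _).trans ?_
      rw [norm_smul, ContinuousLinearMap.norm_smulRight_apply, Real.norm_eq_abs,
        abs_of_nonneg (hχ01 _).1]
      have h5 : ‖(fderiv ℝ χ (w z)).comp (ρ⁻¹ • ContinuousLinearMap.id ℝ E3)‖ ≤ C * ρ⁻¹ := by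
        refine (ContinuousLinearMap.opNorm_comp_le _ _).trans ?_
        refine mul_le_mul (hC _) ?_ (norm_nonneg _) hC0
        rw [norm_smul, Real.norm_eq_abs, abs_of_pos (inv_pos.2 hρ0)]
        exact mul_le_of_le_one_right (inv_pos.2 hρ0).le ContinuousLinearMap.norm_id_le
      have h6 : ‖g z‖ ≤ ε * (2 * ρ) := (hgb z hzb).trans
        (mul_le_mul_of_nonneg_left (hin z hz).le hε.le)
      have h7 : χ (w z) * ‖fderiv ℝ g z‖ ≤ 1 * ε :=
        mul_le_mul (hχ01 _).2 (hδε z hzb) (norm_nonneg _) zero_le_one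
      have h8 : ‖(fderiv ℝ χ (w z)).comp (ρ⁻¹ • ContinuousLinearMap.id ℝ E3)‖ * ‖g z‖ ≤
          C * ρ⁻¹ * (ε * (2 * ρ)) :=
        mul_le_mul h5 h6 (norm_nonneg _) (by positivity)
      have h9 : C * ρ⁻¹ * (ε * (2 * ρ)) = 2 * C * ε := by
        field_simp
      rw [h9] at h8
      linarith
    · rw [(hoff z hz).fderiv_eq, fderiv_fun_const]
      simp
  have hK : IsCompact (w ⁻¹' L) := by
    have h3 : w ⁻¹' L = (fun y => z0 + ρ • y) '' L := by
      ext z
      constructor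
      · intro hz
        refine ⟨w z, hz, ?_⟩
        rw [hw]
        simp only
        rw [smul_smul, mul_inv_cancel₀ hρ0.ne', one_smul]
        abel
      · rintro ⟨y, hy, rfl⟩
        rw [mem_preimage, hw]
        simp only
        rw [add_sub_cancel_left, smul_smul, inv_mul_cancel₀ hρ0.ne', one_smul]
        exact hy
    rw [h3]
    exact hL.image (continuous_const.add (continuous_id.const_smul ρ))
  obtain ⟨u, hu, hux⟩ := A1 U hU v hvs (w ⁻¹' L) hK (fun z hz => (hδW (hinb z hz)).2)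
    (fun z hz => by
      rw [hv]
      simp only
      rw [hχ0 _ hz, zero_smul]) hvD
  refine ⟨u, hu, ?_⟩
  have h3 : w z0 ∈ W' := by
    rw [hw]
    simp only
    rw [sub_self, smul_zero]
    exact hKW' (Metric.mem_closedBall_self zero_le_one)
  have h4 : ∀ᶠ z in 𝓝 z0, w z ∈ W' := hwc.continuousAt.eventually_mem (hW'.mem_nhds h3)
  filter_upwards [h4] with z hz
  rw [hux, hv]
  simp only
  rw [hχ1 _ hz, one_smul, hg]
  simp only
  abel

end Pool.Agent.QM59.G
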