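import Mathlib
import Pool.Agent.Lib.MP_decea1_gt_A.Bump

/-!
# MP_decea1_gt, block G, module Tube: thin tubes in the cube

PROOF. `S = segment ℝ p z` is compact, convex, contained in the cube (`convex_Box`), and of measure
zero (it lies in the line through `p` and `z`, an affine subspace different from the whole space,
`Measure.addHaar_affineSubspace`). `U = Metric.thickening δ S`, `K = Metric.cthickening δ S` for
`δ > 0` small: `U` is open, convex (`Convex.thickening`), so connected, `K` is compact
(`IsCompact.cthickening`), `K ⊆ Cube` (`IsCompact.exists_cthickening_subset_open`), and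
`volume K → volume S = 0` (`tendsto_measure_cthickening_of_isCompact`).
-/

set_option autoImplicit false

open MeasureTheory Set Filter Topology

namespace Pool.Agent.QM59.G

private theorem volume_segment_zero (p z : E3) : volume (segment ℝ p z) = 0 := by
  have h1 : (affineSpan ℝ ({p, z} : Set E3)) ≠ ⊤ := by
    intro h
    have h2 : vectorSpan ℝ ({p, z} : Set E3) = ⊤ := by
      rw [← direction_affineSpan, h, AffineSubspace.direction_top]
    have h3 : Module.finrank ℝ (vectorSpan ℝ ({p, z} : Set E3)) ≤ 1 :=
      (collinear_pair ℝ p z).finrank_le_one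
    rw [h2, finrank_top, Module.finrank_fin_fun] at h3
    omega
  refine measure_mono_null ?_ (Measure.addHaar_affineSubspace volume _ h1)
  rw [← convexHull_pair]
  exact convexHull_subset_affineSpan _

theorem exists_tube (p z : E3) (hp : p ∈ Cube) (hz : z ∈ Cube) (v : ℝ) (hv : 0 < v) :
    ∃ U K : Set E3, IsOpen U ∧ IsConnected U ∧ p ∈ U ∧ z ∈ U ∧ U ⊆ K ∧ IsCompact K ∧ K ⊆ Cube ∧
      volume K < ENNReal.ofReal v := by
  have hS : IsCompact (segment ℝ p z) := by
    rw [← convexHull_pair]
    exact (Set.toFinite ({p, z} : Set E3)).isCompact_convexHull ℝ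
  have hSC : segment ℝ p z ⊆ Cube := (convex_Box 0 1).segment_subset hp hz
  obtain ⟨δ1, hδ1, h1⟩ := hS.exists_cthickening_subset_open isOpen_Cube hSC
  have ht := tendsto_measure_cthickening_of_isCompact (μ := volume) hS
  rw [volume_segment_zero] at ht
  have h2 : ∀ᶠ r in 𝓝 (0 : ℝ), volume (Metric.cthickening r (segment ℝ p z)) <
      ENNReal.ofReal v := ht.eventually_lt_const (ENNReal.ofReal_pos.2 hv)
  obtain ⟨δ2, hδ2, h3⟩ := Metric.eventually_nhds_iff.1 h2
  have hδ : 0 < min δ1 (δ2 / 2) := lt_min hδ1 (by linarith)
  have hpS : p ∈ segment ℝ p z := left_mem_segment ℝ p z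
  have hzS : z ∈ segment ℝ p z := right_mem_segment ℝ p z
  refine ⟨Metric.thickening (min δ1 (δ2 / 2)) (segment ℝ p z),
    Metric.cthickening (min δ1 (δ2 / 2)) (segment ℝ p z), Metric.isOpen_thickening,
    ⟨⟨p, Metric.self_subset_thickening hδ _ hpS⟩,
      ((convex_segment p z).thickening _).isPreconnected⟩,
    Metric.self_subset_thickening hδ _ hpS, Metric.self_subset_thickening hδ _ hzS,
    Metric.thickening_subset_cthickening _ _, hS.cthickening,
    (Metric.cthickening_mono (min_le_left _ _) _).trans h1, ?_⟩
  apply h3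
  rw [Real.dist_0_eq_abs, abs_of_pos hδ]
  exact lt_of_le_of_lt (min_le_right _ _) (by linarith)

end Pool.Agent.QM59.G
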