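import Mathlib
import Pool.Agent.Lib.MP_decea1_gt_A.A4
import Pool.Agent.Lib.MP_decea1_gt_A.Hole
import Pool.Agent.Lib.MP_decea1_gt_G.Move
import Pool.Agent.Lib.MP_decea1_gt_G.GermId
import Pool.Agent.Lib.MP_decea1_gt_G.Tube

/-!
# MP_decea1_gt, block G, module Moves (G2, statement `MovesT` of F/Germ.lean)

PROOF. `p = h z0`, `U`, `K` from `exists_tube p z0`. The matrix of `fderiv h z0` has determinant one;
`A` = its inverse. `u1` from `move_aff U p z0 A`. `k z = u1 (h z)` is smooth on a neighbourhood of `z0`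
(`u1` is smooth), `k z0 = z0`, `fderiv k z0 = id` (chain rule; `u1` is `z0 + A (x - p)` near `p`).
`k'` from `germ_id U`. `u2 = k'⁻¹ * u1`: `InIso U u2`, `u2 (h z) = z` near `z0`. `jac u2 = 1` near `p`: for `y`
near `p` the point `z = u2 y` is near `u2 p = z0` and `u2 (h z) = z = u2 y`, so `h z = y`; differentiate
`u2 ∘ h = id` near `z`: `jac u2 y * jac h z = 1` (`jac_comp`, `jac_congr`, `jac_id`). So `jac u2 = 1` on
an open `W' ∋ p`. `r` with `Icc (p - r) (p + r) ⊆ W' ∩ U` (`exists_Box`), `isConnected_diff_Icc`, `A4one`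
(domain `U`, compact set the closed box): `m` with `InIso (U \ Icc ..) m`, `Vol (u2 * m)`.
`u = u2 * m`: `m` is the identity on the box, which is a neighbourhood of `p`, and `h z` is in it for
`z` near `z0`. `InIso.mono` to the cube (`U ⊆ K ⊆ Cube`), `InIso.idOff` and `IdOff.mono`.
-/

set_option autoImplicit false

open MeasureTheory Set Filter Topology

namespace Pool.Agent.QM59.G

/-- G2: this is `MovesT` of F/Germ.lean -/
theorem moves : ∀ (W : Set E3) (z0 : E3) (h : E3 → E3) (v : ℝ), IsOpen W → z0 ∈ W →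
    W ⊆ Cube → ContDiffOn ℝ smo h W → (∀ z ∈ W, jac h z = 1) → h z0 ∈ Cube → 0 < v →
    ∃ u : Equiv.Perm E3, InIso Cube u ∧ Vol u ∧ (∃ K : Set E3, K ⊆ Cube ∧ IsCompact K ∧
      volume K < ENNReal.ofReal v ∧ IdOff K u) ∧ ∀ᶠ z in 𝓝 z0, u (h z) = z := by
  intro W z0 h v hW hz0 hWC hh hj hp hv
  obtain ⟨U, K, hU, hUc, hpU, hzU, hUK, hK, hKC, hKv⟩ := exists_tube (h z0) z0 hp (hWC hz0) v hv
  have hhd : DifferentiableAt ℝ h z0 :=
    (hh.contDiffAt (hW.mem_nhds hz0)).differentiableAt (by simp)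
  -- the inverse matrix
  set L : E3 →ₗ[ℝ] E3 := (fderiv ℝ h z0 : E3 →ₗ[ℝ] E3) with hL
  have hdet : (LinearMap.toMatrix' L).det = 1 := by
    rw [LinearMap.det_toMatrix']
    exact hj z0 hz0
  set A : Matrix (Fin 3) (Fin 3) ℝ := (LinearMap.toMatrix' L)⁻¹ with hA
  have hAdet : A.det = 1 := by
    rw [hA, Matrix.det_nonsing_inv, hdet, Ring.inverse_one]
  have hAM : A * LinearMap.toMatrix' L = 1 := by
    rw [hA]
    exact Matrix.nonsing_inv_mul _ (by rw [hdet]; exact isUnit_one)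
  obtain ⟨u1, hu1, h1⟩ := move_aff U hU hUc (h z0) z0 hpU hzU A hAdet
  have hu1d : ContDiff ℝ smo (fun x => u1 x) := hu1.isDif.1
  -- the normalised germ
  have hk : ContDiffOn ℝ smo (fun z => u1 (h z)) W := hu1d.comp_contDiffOn hh
  have hk0 : u1 (h z0) = z0 := by
    have := h1.self_of_nhds
    rw [this, sub_self, Matrix.mulVec_zero, add_zero]
  have hdu : HasFDerivAt (fun x => u1 x) (LinearMap.toContinuousLinearMap A.mulVecLin) (h z0) := by
    have h2 : HasFDerivAt (fun x : E3 => z0 + LinearMap.toContinuousLinearMap A.mulVecLin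
        (x - h z0)) (LinearMap.toContinuousLinearMap A.mulVecLin) (h z0) := by
      have h3 := (LinearMap.toContinuousLinearMap A.mulVecLin).hasFDerivAt (x := h z0)
      have h4 := h3.const_add (z0 - LinearMap.toContinuousLinearMap A.mulVecLin (h z0))
      refine h4.congr_of_eventuallyEq (Eventually.of_forall fun x => ?_)
      simp only [map_sub]
      abel
    exact h2.congr_of_eventuallyEq h1
  have hk1 : fderiv ℝ (fun z => u1 (h z)) z0 = ContinuousLinearMap.id ℝ E3 := by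
    have h2 := (hdu.comp z0 hhd.hasFDerivAt).fderiv
    have h3 : (fun z => u1 (h z)) = (fun x => u1 x) ∘ h := rfl
    rw [h3, h2]
    ext y : 1
    have h4 : (LinearMap.toMatrix' L).mulVec y = fderiv ℝ h z0 y :=
      LinearMap.toMatrix'_mulVec L y
    change A.mulVec (fderiv ℝ h z0 y) = y
    rw [← h4, Matrix.mulVec_mulVec, hAM, Matrix.one_mulVec]
  obtain ⟨k', hk', h2⟩ := germ_id U W hU hW z0 hzU hz0 (fun z => u1 (h z)) hk hk0 hk1
  -- the smooth map with the right germ
  set u2 : Equiv.Perm E3 := k'⁻¹ * u1 with hu2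
  have hu2i : InIso U u2 := hk'.inv.mul hu1
  have hu2z : ∀ᶠ z in 𝓝 z0, u2 (h z) = z := by
    filter_upwards [h2] with z hz
    rw [hu2, Equiv.Perm.mul_apply, Equiv.Perm.inv_eq_iff_eq]
    exact hz.symm
  have hu2p : u2 (h z0) = z0 := hu2z.self_of_nhds
  have hu2c : Tendsto (fun y => u2 y) (𝓝 (h z0)) (𝓝 z0) := by
    have := hu2i.isDif.1.continuous.tendsto (h z0)
    rwa [hu2p] at this
  have hjac : ∀ᶠ y in 𝓝 (h z0), jac (fun y => u2 y) y = 1 := by
    filter_upwards [hu2c.eventually (hu2z.eventually_nhds), hu2c.eventually (hW.mem_nhds hz0)]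
      with y hy1 hy2
    have h3 : h (u2 y) = y := u2.injective hy1.self_of_nhds
    have h4 := jac_congr (fun z => u2 (h z)) (fun z => z) (u2 y) hy1
    have h5 : DifferentiableAt ℝ h (u2 y) :=
      (hh.contDiffAt (hW.mem_nhds hy2)).differentiableAt (by simp)
    have h6 : DifferentiableAt ℝ (fun z => u2 z) (h (u2 y)) :=
      (hu2i.isDif.1.differentiable (by simp)) _
    rw [jac_id, jac_comp (fun z => u2 z) h (u2 y) h6 h5, hj _ hy2, mul_one, h3] at h4
    exact h4
  obtain ⟨W', hW'1, hW'o, hpW'⟩ := eventually_nhds_iff.mp hjac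
  obtain ⟨r, hr, hB⟩ := exists_Box (W' ∩ U) (hW'o.inter hU) (h z0) ⟨hpW', hpU⟩
  have hconn := isConnected_diff_Icc U hU hUc _ _ (fun x hx => (hB hx).2)
    (fun j => by linarith)
  obtain ⟨m, hm, hmv⟩ := A4one U hU _ isCompact_Icc (fun x hx => (hB hx).2) hconn u2 hu2i W' hW'o
    (fun x hx => (hB hx).1) hW'1
  have hu : InIso U (u2 * m) := hu2i.mul (hm.mono sdiff_subset)
  refine ⟨u2 * m, hu.mono (hUK.trans hKC), hmv, ⟨K, hKC, hK, hKv, hu.idOff.mono hUK⟩, ?_⟩
  have hBn : Icc (fun i => h z0 i - r) (fun i => h z0 i + r) ∈ 𝓝 (h z0) :=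
    pi_Icc_mem_nhds (fun i => by linarith) (fun i => by linarith)
  filter_upwards [hhd.continuousAt.eventually hBn, hu2z] with z hz1 hz2
  rw [Equiv.Perm.mul_apply, hm.idOff (h z) (fun hx => hx.2 hz1), hz2]

end Pool.Agent.QM59.G
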